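import Mathlib

/-! Order isomorphisms between subsets of linear orders, given by relations, and gluing. -/

namespace Pool.Agent.Lib.MP_9f2d77_lc

open Set

variable {α β γ : Type*} [LinearOrder α] [LinearOrder β] [LinearOrder γ]

/-- `R` is the graph of an order isomorphism of `s` onto `t`. -/
structure IsoRel (s : Set α) (t : Set β) (R : α → β → Prop) : Prop where
  dom : ∀ x ∈ s, ∃ y, R x y
  ran : ∀ y ∈ t, ∃ x, R x y
  left : ∀ {x y}, R x y → x ∈ s
  right : ∀ {x y}, R x y → y ∈ t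
  lt_iff : ∀ {x y x' y'}, R x y → R x' y' → (x < x' ↔ y < y')

/-- `s` and `t` are isomorphic as linear orders. -/
def Iso (s : Set α) (t : Set β) : Prop := ∃ R, IsoRel s t R

/-- `u` is an initial segment of `t`. -/
def IsInit (u t : Set α) : Prop := u ⊆ t ∧ ∀ x ∈ u, ∀ y ∈ t, y ≤ x → y ∈ u

/-- `u` is a final segment of `t`. -/
def IsFinal (u t : Set α) : Prop := u ⊆ t ∧ ∀ x ∈ u, ∀ y ∈ t, x ≤ y → y ∈ u

/-- `s` is isomorphic to an initial segment of `t`. -/
def Ini (s : Set α) (t : Set β) : Prop := ∃ u, IsInit u t ∧ Iso s u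

/-- `s` is isomorphic to a final segment of `t`. -/
def Fnl (s : Set α) (t : Set β) : Prop := ∃ u, IsFinal u t ∧ Iso s u

namespace IsoRel

variable {s : Set α} {t : Set β} {u : Set γ} {R : α → β → Prop} {S : β → γ → Prop}

theorem le_iff (h : IsoRel s t R) {x y x' y'} (h1 : R x y) (h2 : R x' y') :
    x ≤ x' ↔ y ≤ y' := by
  rw [← not_lt, ← not_lt, h.lt_iff h2 h1]

theorem eq_iff (h : IsoRel s t R) {x y x' y'} (h1 : R x y) (h2 : R x' y') :
    x = x' ↔ y = y' := by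
  rw [le_antisymm_iff, le_antisymm_iff, h.le_iff h1 h2, h.le_iff h2 h1]

theorem symm (h : IsoRel s t R) : IsoRel t s (fun y x => R x y) where
  dom := h.ran
  ran := h.dom
  left := fun h1 => h.right h1
  right := fun h1 => h.left h1
  lt_iff := fun h1 h2 => (h.lt_iff h1 h2).symm

theorem refl (s : Set α) : IsoRel s s (fun x y => x ∈ s ∧ x = y) where
  dom := fun x hx => ⟨x, hx, rfl⟩
  ran := fun x hx => ⟨x, hx, rfl⟩
  left := fun h => h.1
  right := fun h => h.2 ▸ h.1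
  lt_iff := by rintro x y x' y' ⟨_, rfl⟩ ⟨_, rfl⟩; rfl

theorem trans (h : IsoRel s t R) (k : IsoRel t u S) :
    IsoRel s u (fun x z => ∃ y, R x y ∧ S y z) where
  dom := fun x hx => by
    obtain ⟨y, hy⟩ := h.dom x hx
    obtain ⟨z, hz⟩ := k.dom y (h.right hy)
    exact ⟨z, y, hy, hz⟩
  ran := fun z hz => by
    obtain ⟨y, hy⟩ := k.ran z hz
    obtain ⟨x, hx⟩ := h.ran y (k.left hy)
    exact ⟨x, y, hx, hy⟩
  left := fun ⟨_, h1, _⟩ => h.left h1
  right := fun ⟨_, _, h2⟩ => k.right h2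
  lt_iff := fun ⟨_, h1, h2⟩ ⟨_, h3, h4⟩ => (h.lt_iff h1 h3).trans (k.lt_iff h2 h4)

/-- Restriction to corresponding subsets. -/
theorem restrict (h : IsoRel s t R) (p : Set α) (q : Set β)
    (hpq : ∀ x y, R x y → (x ∈ p ↔ y ∈ q)) :
    IsoRel (s ∩ p) (t ∩ q) (fun x y => R x y ∧ x ∈ p) where
  dom := fun x hx => by
    obtain ⟨y, hy⟩ := h.dom x hx.1
    exact ⟨y, hy, hx.2⟩
  ran := fun y hy => by
    obtain ⟨x, hx⟩ := h.ran y hy.1
    exact ⟨x, hx, (hpq x y hx).2 hy.2⟩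
  left := fun h1 => ⟨h.left h1.1, h1.2⟩
  right := fun h1 => ⟨h.right h1.1, (hpq _ _ h1.1).1 h1.2⟩
  lt_iff := fun h1 h2 => h.lt_iff h1.1 h2.1

/-- Restriction of the relation to a subset of the domain. -/
theorem image (h : IsoRel s t R) {p : Set α} (hp : p ⊆ s) :
    IsoRel p {y | ∃ x ∈ p, R x y} (fun x y => R x y ∧ x ∈ p) where
  dom := fun x hx => by
    obtain ⟨y, hy⟩ := h.dom x (hp hx)
    exact ⟨y, hy, hx⟩
  ran := fun y ⟨x, hx, hxy⟩ => ⟨x, hxy, hx⟩
  left := fun h1 => h1.2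
  right := fun h1 => ⟨_, h1.2, h1.1⟩
  lt_iff := fun h1 h2 => h.lt_iff h1.1 h2.1

/-- Gluing of isomorphisms along an ordered family of pieces. -/
theorem iUnion {ι : Type*} [LinearOrder ι] {s : ι → Set α} {t : ι → Set β}
    {R : ι → α → β → Prop} (h : ∀ i, IsoRel (s i) (t i) (R i))
    (hs : ∀ i j, i < j → ∀ x ∈ s i, ∀ y ∈ s j, x < y)
    (ht : ∀ i j, i < j → ∀ x ∈ t i, ∀ y ∈ t j, x < y) :
    IsoRel (⋃ i, s i) (⋃ i, t i) (fun x y => ∃ i, R i x y) where
  dom := fun x hx => by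
    obtain ⟨i, hi⟩ := mem_iUnion.1 hx
    obtain ⟨y, hy⟩ := (h i).dom x hi
    exact ⟨y, i, hy⟩
  ran := fun y hy => by
    obtain ⟨i, hi⟩ := mem_iUnion.1 hy
    obtain ⟨x, hx⟩ := (h i).ran y hi
    exact ⟨x, i, hx⟩
  left := fun ⟨i, hi⟩ => mem_iUnion.2 ⟨i, (h i).left hi⟩
  right := fun ⟨i, hi⟩ => mem_iUnion.2 ⟨i, (h i).right hi⟩
  lt_iff := by
    rintro x y x' y' ⟨i, hi⟩ ⟨j, hj⟩
    rcases lt_trichotomy i j with hij | rfl | hij
    · exact iff_of_true (hs i j hij x ((h i).left hi) x' ((h j).left hj))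
        (ht i j hij y ((h i).right hi) y' ((h j).right hj))
    · exact (h i).lt_iff hi hj
    · exact iff_of_false (hs j i hij x' ((h j).left hj) x ((h i).left hi)).not_gt
        (ht j i hij y' ((h j).right hj) y ((h i).right hi)).not_gt

/-- Gluing of two isomorphisms. -/
theorem union {s₁ s₂ : Set α} {t₁ t₂ : Set β} {R₁ R₂ : α → β → Prop}
    (h₁ : IsoRel s₁ t₁ R₁) (h₂ : IsoRel s₂ t₂ R₂)
    (hs : ∀ x ∈ s₁, ∀ y ∈ s₂, x < y) (ht : ∀ x ∈ t₁, ∀ y ∈ t₂, x < y) :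
    IsoRel (s₁ ∪ s₂) (t₁ ∪ t₂) (fun x y => R₁ x y ∨ R₂ x y) where
  dom := by
    rintro x (hx | hx)
    · obtain ⟨y, hy⟩ := h₁.dom x hx
      exact ⟨y, Or.inl hy⟩
    · obtain ⟨y, hy⟩ := h₂.dom x hx
      exact ⟨y, Or.inr hy⟩
  ran := by
    rintro x (hx | hx)
    · obtain ⟨y, hy⟩ := h₁.ran x hx
      exact ⟨y, Or.inl hy⟩
    · obtain ⟨y, hy⟩ := h₂.ran x hx
      exact ⟨y, Or.inr hy⟩
  left := by
    rintro x y (h | h)
    · exact Or.inl (h₁.left h)
    · exact Or.inr (h₂.left h)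
  right := by
    rintro x y (h | h)
    · exact Or.inl (h₁.right h)
    · exact Or.inr (h₂.right h)
  lt_iff := by
    rintro x y x' y' (h | h) (h' | h')
    · exact h₁.lt_iff h h'
    · exact iff_of_true (hs _ (h₁.left h) _ (h₂.left h')) (ht _ (h₁.right h) _ (h₂.right h'))
    · exact iff_of_false (hs _ (h₁.left h') _ (h₂.left h)).not_gt
        (ht _ (h₁.right h') _ (h₂.right h)).not_gt
    · exact h₂.lt_iff h h'

end IsoRel

namespace Iso

variable {s : Set α} {t : Set β} {u : Set γ}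

theorem refl (s : Set α) : Iso s s := ⟨_, IsoRel.refl s⟩

theorem symm (h : Iso s t) : Iso t s := let ⟨_, h⟩ := h; ⟨_, h.symm⟩

theorem comm : Iso s t ↔ Iso t s := ⟨symm, symm⟩

theorem trans (h : Iso s t) (k : Iso t u) : Iso s u :=
  let ⟨_, h⟩ := h; let ⟨_, k⟩ := k; ⟨_, h.trans k⟩

theorem congr_left (h : Iso s t) : Iso s u ↔ Iso t u := ⟨h.symm.trans, h.trans⟩

theorem congr_right {s' : Set α} (h : Iso t u) : Iso s' t ↔ Iso s' u :=
  ⟨fun k => k.trans h, fun k => k.trans h.symm⟩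

theorem union {s₁ s₂ : Set α} {t₁ t₂ : Set β} (h₁ : Iso s₁ t₁) (h₂ : Iso s₂ t₂)
    (hs : ∀ x ∈ s₁, ∀ y ∈ s₂, x < y) (ht : ∀ x ∈ t₁, ∀ y ∈ t₂, x < y) :
    Iso (s₁ ∪ s₂) (t₁ ∪ t₂) :=
  let ⟨_, h₁⟩ := h₁; let ⟨_, h₂⟩ := h₂; ⟨_, h₁.union h₂ hs ht⟩

theorem iUnion {ι : Type*} [LinearOrder ι] {s : ι → Set α} {t : ι → Set β}
    (h : ∀ i, Iso (s i) (t i))
    (hs : ∀ i j, i < j → ∀ x ∈ s i, ∀ y ∈ s j, x < y)
    (ht : ∀ i j, i < j → ∀ x ∈ t i, ∀ y ∈ t j, x < y) :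
    Iso (⋃ i, s i) (⋃ i, t i) := by
  choose R hR using h
  exact ⟨_, IsoRel.iUnion hR hs ht⟩

end Iso

theorem iso_of_orderIso {s : Set α} {t : Set β} (e : s ≃o t) : Iso s t :=
  ⟨fun x y => ∃ h : x ∈ s, (e ⟨x, h⟩ : β) = y,
    { dom := fun x hx => ⟨_, hx, rfl⟩
      ran := fun y hy => ⟨(e.symm ⟨y, hy⟩ : α), (e.symm ⟨y, hy⟩).2, by simp⟩
      left := fun h => h.1
      right := by rintro x y ⟨h, rfl⟩; exact (e ⟨x, h⟩).2
      lt_iff := by
        rintro x y x' y' ⟨h, rfl⟩ ⟨h', rfl⟩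
        rw [Subtype.coe_lt_coe, e.lt_iff_lt, Subtype.mk_lt_mk] }⟩

theorem IsInit.refl (s : Set α) : IsInit s s := ⟨Subset.rfl, fun _ _ _ h _ => h⟩

theorem IsInit.trans {s t u : Set α} (h : IsInit s t) (k : IsInit t u) : IsInit s u :=
  ⟨h.1.trans k.1, fun x hx y hy hyx => h.2 x hx y (k.2 x (h.1 hx) y hy hyx) hyx⟩

theorem isInit_empty (s : Set α) : IsInit ∅ s := ⟨empty_subset _, fun _ h => h.elim⟩

theorem isInit_inter_Iic (s : Set α) (x : α) : IsInit (s ∩ Iic x) s :=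
  ⟨inter_subset_left, fun _ hy _ hz h => ⟨hz, h.trans hy.2⟩⟩

theorem isInit_inter_Iio (s : Set α) (x : α) : IsInit (s ∩ Iio x) s :=
  ⟨inter_subset_left, fun _ hy _ hz h => ⟨hz, h.trans_lt hy.2⟩⟩

theorem IsInit.iUnion {ι : Type*} {s : ι → Set α} {t : Set α} (h : ∀ i, IsInit (s i) t) :
    IsInit (⋃ i, s i) t :=
  ⟨iUnion_subset fun i => (h i).1, fun x hx y hy hyx => by
    obtain ⟨i, hi⟩ := mem_iUnion.1 hx
    exact mem_iUnion.2 ⟨i, (h i).2 x hi y hy hyx⟩⟩

/-- Two initial segments are comparable. -/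
theorem IsInit.total {s s' t : Set α} (h : IsInit s t) (h' : IsInit s' t) :
    s ⊆ s' ∨ s' ⊆ s := by
  by_contra hc
  push Not at hc
  obtain ⟨h1, h2⟩ := hc
  obtain ⟨x, hx, hx'⟩ := not_subset.1 h1
  obtain ⟨y, hy, hy'⟩ := not_subset.1 h2
  rcases le_total x y with hxy | hxy
  · exact hx' (h'.2 y hy x (h.1 hx) hxy)
  · exact hy' (h.2 x hx y (h'.1 hy) hxy)

/-- The image of an initial segment under an isomorphism onto an initial segment is an
initial segment. -/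
theorem IsoRel.isInit_image {s : Set α} {t : Set β} {R : α → β → Prop} (h : IsoRel s t R)
    {p : Set α} (hp : IsInit p s) : IsInit {y | ∃ x ∈ p, R x y} t := by
  refine ⟨?_, ?_⟩
  · rintro y ⟨x, _, hxy⟩
    exact h.right hxy
  · rintro y ⟨x, hx, hxy⟩ z hz hzy
    obtain ⟨w, hw⟩ := h.ran z hz
    exact ⟨w, hp.2 x hx w (h.left hw) ((h.le_iff hw hxy).2 hzy), hw⟩

theorem Iso.ini {s : Set α} {t : Set β} (h : Iso s t) : Ini s t := ⟨t, IsInit.refl t, h⟩

theorem IsInit.ini {s t : Set α} (h : IsInit s t) : Ini s t := ⟨s, h, Iso.refl s⟩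

theorem Ini.refl (s : Set α) : Ini s s := (Iso.refl s).ini

theorem Ini.trans {s : Set α} {t : Set β} {u : Set γ} (h : Ini s t) (k : Ini t u) :
    Ini s u := by
  obtain ⟨p, hp, hsp⟩ := h
  obtain ⟨q, hq, R, hR⟩ := k
  exact ⟨_, (hR.isInit_image hp).trans hq, hsp.trans ⟨_, hR.image hp.1⟩⟩

theorem Ini.congr_left {s : Set α} {t : Set β} {u : Set γ} (h : Iso s t) :
    Ini s u ↔ Ini t u := ⟨fun k => h.symm.ini.trans k, fun k => h.ini.trans k⟩

theorem Ini.congr_right {s : Set α} {t : Set β} {u : Set γ} (h : Iso t u) :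
    Ini s t ↔ Ini s u := ⟨fun k => k.trans h.ini, fun k => k.trans h.symm.ini⟩

/-- Gluing an initial isomorphism with an initial embedding of the rest. -/
theorem Ini.glue {N : Set α} {M : Set β} {p : Set α} {q : Set β} (hp : IsInit p N)
    (hq : IsInit q M) (h : Iso p q) (k : Ini (N \ p) (M \ q)) : Ini N M := by
  obtain ⟨u, hu, huk⟩ := k
  have hlt : ∀ x ∈ q, ∀ y ∈ u, x < y := by
    intro x hx y hy
    by_contra hc
    exact (hu.1 hy).2 (hq.2 x hx y (hu.1 hy).1 (not_lt.1 hc))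
  refine ⟨q ∪ u, ⟨?_, ?_⟩, ?_⟩
  · rintro x (hx | hx)
    · exact hq.1 hx
    · exact (hu.1 hx).1
  · rintro x (hx | hx) y hy hyx
    · exact Or.inl (hq.2 x hx y hy hyx)
    · by_cases hyq : y ∈ q
      · exact Or.inl hyq
      · exact Or.inr (hu.2 x hx y ⟨hy, hyq⟩ hyx)
  · have := h.union huk (fun x hx y hy => by
      by_contra hc
      exact hy.2 (hp.2 x hx y hy.1 (not_lt.1 hc))) hlt
    rwa [union_sdiff_cancel hp.1] at this

/-- Gluing along a chain of initial segments. -/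
theorem iso_chain {A : Set α} {K : Set β} {u : ℕ → Set α} {v : ℕ → Set β}
    (hu : ∀ i, IsInit (u i) A) (hv : ∀ i, IsInit (v i) K)
    (hum : ∀ i, u i ⊆ u (i + 1)) (hvm : ∀ i, v i ⊆ v (i + 1))
    (h0 : Iso (u 0) (v 0)) (hs : ∀ i, Iso (u (i + 1) \ u i) (v (i + 1) \ v i)) :
    Iso (⋃ i, u i) (⋃ i, v i) := by
  let p : ℕ → Set α := fun i => Nat.casesOn i (u 0) (fun i => u (i + 1) \ u i)
  let q : ℕ → Set β := fun i => Nat.casesOn i (v 0) (fun i => v (i + 1) \ v i)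
  have hum' : Monotone u := monotone_nat_of_le_succ hum
  have hvm' : Monotone v := monotone_nat_of_le_succ hvm
  have hpu : ∀ i, p i ⊆ u i := by
    intro i
    cases i with
    | zero => exact Subset.rfl
    | succ i => exact sdiff_subset
  have hqv : ∀ i, q i ⊆ v i := by
    intro i
    cases i with
    | zero => exact Subset.rfl
    | succ i => exact sdiff_subset
  have hp : (⋃ i, u i) = ⋃ i, p i := by
    apply subset_antisymm
    · refine iUnion_subset fun i => ?_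
      induction i with
      | zero => exact subset_iUnion p 0
      | succ i ih =>
        intro x hx
        by_cases h : x ∈ u i
        · exact ih h
        · exact mem_iUnion.2 ⟨i + 1, hx, h⟩
    · exact iUnion_mono hpu
  have hq : (⋃ i, v i) = ⋃ i, q i := by
    apply subset_antisymm
    · refine iUnion_subset fun i => ?_
      induction i with
      | zero => exact subset_iUnion q 0
      | succ i ih =>
        intro x hx
        by_cases h : x ∈ v i
        · exact ih h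
        · exact mem_iUnion.2 ⟨i + 1, hx, h⟩
    · exact iUnion_mono hqv
  rw [hp, hq]
  refine Iso.iUnion (fun i => ?_) ?_ ?_
  · cases i with
    | zero => exact h0
    | succ i => exact hs i
  · intro i j hij x hx y hy
    by_contra hc
    cases j with
    | zero => omega
    | succ j =>
      have hxj : x ∈ u j := hum' (by omega : i ≤ j) (hpu i hx)
      exact hy.2 ((hu j).2 x hxj y ((hu (j + 1)).1 hy.1) (not_lt.1 hc))
  · intro i j hij x hx y hy
    by_contra hc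
    cases j with
    | zero => omega
    | succ j =>
      have hxj : x ∈ v j := hvm' (by omega : i ≤ j) (hqv i hx)
      exact hy.2 ((hv j).2 x hxj y ((hv (j + 1)).1 hy.1) (not_lt.1 hc))

end Pool.Agent.Lib.MP_9f2d77_lc
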