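import Pool.Agent.Lib.MP_9f2d77_lc.Basic

/-! When is a countable linear order isomorphic to an initial segment of another one. -/

namespace Pool.Agent.Lib.MP_9f2d77_lc

open Set

variable {α β γ : Type*} [LinearOrder α] [LinearOrder β] [LinearOrder γ]

/-- There is `b` such that each `(a, c]` is isomorphic to an initial segment of `(a, b]`. -/
def G (N : Set α) (a : α) : Prop :=
  ∃ b ∈ N, a < b ∧ ∀ c ∈ N, a < c → ∃ d ∈ N, a < d ∧ d ≤ b ∧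
    Iso (N ∩ Ioc a c) (N ∩ Ioc a d)

/-- Some `(a, b]` recurs cofinally. -/
def Rec (N : Set α) (a : α) : Prop :=
  ∃ b ∈ N, a < b ∧ ∀ e ∈ N, ∃ c ∈ N, e ≤ c ∧ a < c ∧ Iso (N ∩ Ioc a c) (N ∩ Ioc a b)

/-- The union of all `K ∩ Iic k` isomorphic to `U`. -/
def hull (K : Set β) (U : Set α) : Set β :=
  {k | k ∈ K ∧ ∃ k' ∈ K, k ≤ k' ∧ Iso (K ∩ Iic k') U}

/-- The part of the gluing data which is forced. -/
def Forced (A : Set α) (K : Set β) : Prop :=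
  (∀ a ∈ A, Iso (hull A (A ∩ Iic a)) (hull K (A ∩ Iic a))) ∧
  ∀ a ∈ A, ∀ b ∈ A, b ∉ hull A (A ∩ Iic a) →
    hull K (A ∩ Iic a) ⊆ hull K (A ∩ Iic b) ∧
    Iso (hull A (A ∩ Iic b) \ hull A (A ∩ Iic a)) (hull K (A ∩ Iic b) \ hull K (A ∩ Iic a))

theorem isInit_hull (K : Set β) (U : Set α) : IsInit (hull K U) K :=
  ⟨fun _ h => h.1, fun _ ⟨_, k', hk', h1, h2⟩ _ hy hyx => ⟨hy, k', hk', hyx.trans h1, h2⟩⟩

theorem mem_hull_self {A : Set α} {a : α} (ha : a ∈ A) : a ∈ hull A (A ∩ Iic a) :=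
  ⟨ha, a, ha, le_rfl, Iso.refl _⟩

theorem IsoRel.iso_Iic {s : Set α} {t : Set β} {R : α → β → Prop} (h : IsoRel s t R) {x y}
    (hxy : R x y) : Iso (s ∩ Iic x) (t ∩ Iic y) :=
  ⟨_, h.restrict _ _ fun _ _ hab => h.le_iff hab hxy⟩

theorem IsoRel.iso_Ioi {s : Set α} {t : Set β} {R : α → β → Prop} (h : IsoRel s t R) {x y}
    (hxy : R x y) : Iso (s ∩ Ioi x) (t ∩ Ioi y) :=
  ⟨_, h.restrict _ _ fun _ _ hab => h.lt_iff hxy hab⟩

theorem IsoRel.iso_Ioc {s : Set α} {t : Set β} {R : α → β → Prop} (h : IsoRel s t R)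
    {x y x' y'} (hxy : R x y) (hxy' : R x' y') : Iso (s ∩ Ioc x x') (t ∩ Ioc y y') :=
  ⟨_, h.restrict _ _ fun _ _ hab => and_congr (h.lt_iff hxy hab) (h.le_iff hab hxy')⟩

theorem Iso.nonempty {s : Set α} {t : Set β} (h : Iso s t) (hs : s.Nonempty) : t.Nonempty := by
  obtain ⟨R, hR⟩ := h
  obtain ⟨x, hx⟩ := hs
  obtain ⟨y, hy⟩ := hR.dom x hx
  exact ⟨y, hR.right hy⟩

/-- If `G` holds everywhere then each tail embeds initially in a bounded interval. -/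
theorem claim1 [Countable α] {N : Set α} (hG : ∀ a ∈ N, G N a) {a : α} (ha : a ∈ N) :
    ∃ b ∈ N, a < b ∧ Ini (N ∩ Ioi a) (N ∩ Ioc a b) := by
  classical
  have : Nonempty α := ⟨a⟩
  obtain ⟨q, hq⟩ := exists_surjective_nat α
  choose! bb hbN hab hbb using hG
  -- the step of the construction
  have step : ∀ (x y z r : α), x ∈ N → y ∈ N → z ∈ N → y < z →
      Iso (N ∩ Ioc x (bb x)) (N ∩ Ioc y z) → ∃ x' y' z' : α, x' ∈ N ∧ y' ∈ N ∧ z' ∈ N ∧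
      y' < z' ∧ Iso (N ∩ Ioc x' (bb x')) (N ∩ Ioc y' z') ∧ x < x' ∧ (r ∈ N → r ≤ x') ∧
      y < y' ∧ z' ≤ z ∧ Iso (N ∩ Ioc x x') (N ∩ Ioc y y') := by
    intro x y z r hx hy hz hyz hI
    obtain ⟨x', hx', hxx', hr⟩ : ∃ x' ∈ N, x < x' ∧ (r ∈ N → r ≤ x') := by
      by_cases hr : r ∈ N
      · refine ⟨max (bb x) r, ?_, lt_max_of_lt_left (hab x hx), fun _ => le_max_right _ _⟩
        rcases max_choice (bb x) r with h | h <;> rw [h]
        exacts [hbN x hx, hr]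
      · exact ⟨bb x, hbN x hx, hab x hx, fun h => (hr h).elim⟩
    have hx'c := hab x' hx'
    obtain ⟨d, hd, hxd, hdb, hI2⟩ := hbb x hx (bb x') (hbN x' hx') (hxx'.trans hx'c)
    obtain ⟨R, hR⟩ := hI
    obtain ⟨z', hz'⟩ := hR.dom d ⟨hd, hxd, hdb⟩
    have hz'2 := hR.right hz'
    have hI3 : Iso (N ∩ Ioc x d) (N ∩ Ioc y z') := by
      have h1 := hR.iso_Iic hz'
      have e1 : N ∩ Ioc x (bb x) ∩ Iic d = N ∩ Ioc x d := by
        ext w; simp only [mem_inter_iff, mem_Ioc, mem_Iic]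
        constructor
        · rintro ⟨⟨h1, h2, h3⟩, h4⟩; exact ⟨h1, h2, h4⟩
        · rintro ⟨h1, h2, h3⟩; exact ⟨⟨h1, h2, h3.trans hdb⟩, h3⟩
      have e2 : N ∩ Ioc y z ∩ Iic z' = N ∩ Ioc y z' := by
        ext w; simp only [mem_inter_iff, mem_Ioc, mem_Iic]
        constructor
        · rintro ⟨⟨h1, h2, h3⟩, h4⟩; exact ⟨h1, h2, h4⟩
        · rintro ⟨h1, h2, h3⟩; exact ⟨⟨h1, h2, h3.trans hz'2.2.2⟩, h3⟩
      rwa [e1, e2] at h1
    obtain ⟨S, hS⟩ := hI2.trans hI3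
    obtain ⟨y', hy'⟩ := hS.dom x' ⟨hx', hxx', hx'c.le⟩
    obtain ⟨w, hw⟩ := hS.dom (bb x') ⟨hbN x' hx', hxx'.trans hx'c, le_rfl⟩
    have hy'2 := hS.right hy'
    have hw2 := hS.right hw
    have hyw : y' < w := (hS.lt_iff hy' hw).1 hx'c
    refine ⟨x', y', z', hx', hy'2.1, hz'2.1, hyw.trans_le hw2.2.2, ?_, hxx', hr, hy'2.2.1,
      hz'2.2.2, ?_⟩
    · have h1 := hS.iso_Ioi hy'
      have e1 : N ∩ Ioc x (bb x') ∩ Ioi x' = N ∩ Ioc x' (bb x') := by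
        ext w; simp only [mem_inter_iff, mem_Ioc, mem_Ioi]
        constructor
        · rintro ⟨⟨h1, h2, h3⟩, h4⟩; exact ⟨h1, h4, h3⟩
        · rintro ⟨h1, h2, h3⟩; exact ⟨⟨h1, hxx'.trans h2, h3⟩, h2⟩
      have e2 : N ∩ Ioc y z' ∩ Ioi y' = N ∩ Ioc y' z' := by
        ext w; simp only [mem_inter_iff, mem_Ioc, mem_Ioi]
        constructor
        · rintro ⟨⟨h1, h2, h3⟩, h4⟩; exact ⟨h1, h4, h3⟩
        · rintro ⟨h1, h2, h3⟩; exact ⟨⟨h1, hy'2.2.1.trans h2, h3⟩, h2⟩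
      rwa [e1, e2] at h1
    · have h1 := hS.iso_Iic hy'
      have e1 : N ∩ Ioc x (bb x') ∩ Iic x' = N ∩ Ioc x x' := by
        ext w; simp only [mem_inter_iff, mem_Ioc, mem_Iic]
        constructor
        · rintro ⟨⟨h1, h2, h3⟩, h4⟩; exact ⟨h1, h2, h4⟩
        · rintro ⟨h1, h2, h3⟩; exact ⟨⟨h1, h2, h3.trans hx'c.le⟩, h3⟩
      have e2 : N ∩ Ioc y z' ∩ Iic y' = N ∩ Ioc y y' := by
        ext w; simp only [mem_inter_iff, mem_Ioc, mem_Iic]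
        constructor
        · rintro ⟨⟨h1, h2, h3⟩, h4⟩; exact ⟨h1, h2, h4⟩
        · rintro ⟨h1, h2, h3⟩; exact ⟨⟨h1, h2, h3.trans hy'2.2.2⟩, h3⟩
      rwa [e1, e2] at h1
  -- the states
  let St := {p : α × α × α // p.1 ∈ N ∧ p.2.1 ∈ N ∧ p.2.2 ∈ N ∧ p.2.1 < p.2.2 ∧
    Iso (N ∩ Ioc p.1 (bb p.1)) (N ∩ Ioc p.2.1 p.2.2)}
  have step' : ∀ (s : St) (r : α), ∃ s' : St, s.1.1 < s'.1.1 ∧ (r ∈ N → r ≤ s'.1.1) ∧
      s.1.2.1 < s'.1.2.1 ∧ s'.1.2.2 ≤ s.1.2.2 ∧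
      Iso (N ∩ Ioc s.1.1 s'.1.1) (N ∩ Ioc s.1.2.1 s'.1.2.1) := by
    rintro ⟨⟨x, y, z⟩, hx, hy, hz, hyz, hI⟩ r
    obtain ⟨x', y', z', h1, h2, h3, h4, h5, h6, h7, h8, h9, h10⟩ :=
      step x y z r hx hy hz hyz hI
    exact ⟨⟨(x', y', z'), h1, h2, h3, h4, h5⟩, h6, h7, h8, h9, h10⟩
  choose nx h1 h2 h3 h4 h5 using step'
  let f : ℕ → St := fun n => Nat.rec ⟨(a, a, bb a), ha, ha, hbN a ha, hab a ha, Iso.refl _⟩
    (fun n s => nx s (q n)) n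
  have hf : ∀ n, f (n + 1) = nx (f n) (q n) := fun n => rfl
  let A : ℕ → α := fun n => (f n).1.1
  let Y : ℕ → α := fun n => (f n).1.2.1
  let Z : ℕ → α := fun n => (f n).1.2.2
  have hA0 : A 0 = a := rfl
  have hY0 : Y 0 = a := rfl
  have hZ0 : Z 0 = bb a := rfl
  have hAmono : ∀ n, A n < A (n + 1) := by
    intro n; exact h1 (f n) (q n)
  have hYmono : ∀ n, Y n < Y (n + 1) := fun n => h3 (f n) (q n)
  have hZanti : ∀ n, Z (n + 1) ≤ Z n := fun n => h4 (f n) (q n)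
  have hcof : ∀ n, q n ∈ N → q n ≤ A (n + 1) := by
    intro n; exact h2 (f n) (q n)
  have hiso : ∀ n, Iso (N ∩ Ioc (A n) (A (n + 1))) (N ∩ Ioc (Y n) (Y (n + 1))) :=
    fun n => h5 (f n) (q n)
  have hAm : StrictMono A := strictMono_nat_of_lt_succ hAmono
  have hYm : StrictMono Y := strictMono_nat_of_lt_succ hYmono
  have hZm : Antitone Z := antitone_nat_of_succ_le hZanti
  have hYZ : ∀ n, Y n < Z n := fun n => (f n).2.2.2.2.1
  refine ⟨bb a, hbN a ha, hab a ha, ⋃ i, N ∩ Ioc (Y 0) (Y i), IsInit.iUnion fun i => ?_, ?_⟩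
  · refine ⟨?_, ?_⟩
    · rintro w ⟨hw, hw1, hw2⟩
      exact ⟨hw, hw1, hw2.trans ((hYZ i).le.trans (hZm (Nat.zero_le i)))⟩
    · rintro w ⟨hw, hw1, hw2⟩ v ⟨hv, hv1, hv2⟩ hvw
      exact ⟨hv, hv1, hvw.trans hw2⟩
  · have hU : N ∩ Ioi a = ⋃ i, N ∩ Ioc (A 0) (A i) := by
      ext w
      simp only [mem_inter_iff, mem_Ioi, mem_iUnion, mem_Ioc]
      constructor
      · rintro ⟨hw, haw⟩
        obtain ⟨n, rfl⟩ := hq w
        exact ⟨n + 1, hw, haw, hcof n hw⟩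
      · rintro ⟨i, hw, haw, _⟩
        exact ⟨hw, haw⟩
    rw [hU]
    refine iso_chain (A := N ∩ Ioi a) (K := N ∩ Ioi a) ?_ ?_ ?_ ?_ ?_ ?_
    · intro i
      exact ⟨fun w hw => ⟨hw.1, hw.2.1⟩, fun w hw v hv hvw => ⟨hv.1, hv.2, hvw.trans hw.2.2⟩⟩
    · intro i
      exact ⟨fun w hw => ⟨hw.1, hw.2.1⟩, fun w hw v hv hvw => ⟨hv.1, hv.2, hvw.trans hw.2.2⟩⟩
    · intro i w hw
      exact ⟨hw.1, hw.2.1, hw.2.2.trans (hAmono i).le⟩
    · intro i w hw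
      exact ⟨hw.1, hw.2.1, hw.2.2.trans (hYmono i).le⟩
    · have e1 : N ∩ Ioc (A 0) (A 0) = ∅ := by simp
      have e2 : N ∩ Ioc (Y 0) (Y 0) = ∅ := by simp
      rw [e1, e2]
      exact ⟨fun _ _ => False, ⟨fun _ h => h.elim, fun _ h => h.elim, fun h => h.elim,
        fun h => h.elim, fun h => h.elim⟩⟩
    · intro i
      have e1 : (N ∩ Ioc (A 0) (A (i + 1))) \ (N ∩ Ioc (A 0) (A i)) =
          N ∩ Ioc (A i) (A (i + 1)) := by
        ext w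
        simp only [mem_sdiff, mem_inter_iff, mem_Ioc, not_and, not_le]
        constructor
        · rintro ⟨⟨h1, h2, h3⟩, h4⟩
          exact ⟨h1, h4 h1 h2, h3⟩
        · rintro ⟨h1, h2, h3⟩
          exact ⟨⟨h1, (hAm.monotone (Nat.zero_le i)).trans_lt h2, h3⟩, fun _ _ => h2⟩
      have e2 : (N ∩ Ioc (Y 0) (Y (i + 1))) \ (N ∩ Ioc (Y 0) (Y i)) =
          N ∩ Ioc (Y i) (Y (i + 1)) := by
        ext w
        simp only [mem_sdiff, mem_inter_iff, mem_Ioc, not_and, not_le]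
        constructor
        · rintro ⟨⟨h1, h2, h3⟩, h4⟩
          exact ⟨h1, h4 h1 h2, h3⟩
        · rintro ⟨h1, h2, h3⟩
          exact ⟨⟨h1, (hYm.monotone (Nat.zero_le i)).trans_lt h2, h3⟩, fun _ _ => h2⟩
      rw [e1, e2]
      exact hiso i

theorem claim2 {N : Set α} {a : α} (h : Rec N a) : G N a := by
  obtain ⟨b, hb, hab, h⟩ := h
  refine ⟨b, hb, hab, fun c hc hac => ?_⟩
  obtain ⟨c', hc', hcc', hac', R, hR⟩ := h c hc
  obtain ⟨d, hd⟩ := hR.dom c ⟨hc, hac, hcc'⟩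
  have hd2 := hR.right hd
  refine ⟨d, hd2.1, hd2.2.1, hd2.2.2, ?_⟩
  have h1 := hR.iso_Iic hd
  have e1 : N ∩ Ioc a c' ∩ Iic c = N ∩ Ioc a c := by
    ext w; simp only [mem_inter_iff, mem_Ioc, mem_Iic]
    constructor
    · rintro ⟨⟨h1, h2, h3⟩, h4⟩; exact ⟨h1, h2, h4⟩
    · rintro ⟨h1, h2, h3⟩; exact ⟨⟨h1, h2, h3.trans hcc'⟩, h3⟩
  have e2 : N ∩ Ioc a b ∩ Iic d = N ∩ Ioc a d := by
    ext w; simp only [mem_inter_iff, mem_Ioc, mem_Iic]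
    constructor
    · rintro ⟨⟨h1, h2, h3⟩, h4⟩; exact ⟨h1, h2, h4⟩
    · rintro ⟨h1, h2, h3⟩; exact ⟨⟨h1, h2, h3.trans hd2.2.2⟩, h3⟩
  rwa [e1, e2] at h1

/-- If the tail above `a` is isomorphic to a bounded initial segment of itself, then `G`. -/
theorem G_of_ini {N : Set α} {a b : α} (hb : b ∈ N) (hab : a < b)
    (h : Ini (N ∩ Ioi a) (N ∩ Ioc a b)) : G N a := by
  refine ⟨b, hb, hab, fun c hc hac => ?_⟩
  obtain ⟨u, hu, R, hR⟩ := h
  obtain ⟨d, hd⟩ := hR.dom c ⟨hc, hac⟩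
  have hd2 := hu.1 (hR.right hd)
  refine ⟨d, hd2.1, hd2.2.1, hd2.2.2, ?_⟩
  have h1 := hR.iso_Iic hd
  have e1 : N ∩ Ioi a ∩ Iic c = N ∩ Ioc a c := by
    rw [inter_assoc, Ioi_inter_Iic]
  have e2 : u ∩ Iic d = N ∩ Ioc a d := by
    ext w; simp only [mem_inter_iff, mem_Ioc, mem_Iic]
    constructor
    · rintro ⟨h1, h2⟩
      exact ⟨(hu.1 h1).1, (hu.1 h1).2.1, h2⟩
    · rintro ⟨h1, h2, h3⟩
      exact ⟨hu.2 d (hR.right hd) w ⟨h1, h2, h3.trans hd2.2.2⟩ h3, h3⟩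
  rwa [e1, e2] at h1

/-- If the tail above `x` embeds initially in a bounded interval and `y ≤ x` then the same holds
for `y`. -/
theorem ini_tail_mono {N : Set α} {x y b : α} (hyx : y ≤ x) (hxb : x ≤ b)
    (h : Ini (N ∩ Ioi x) (N ∩ Ioc x b)) : Ini (N ∩ Ioi y) (N ∩ Ioc y b) := by
  refine Ini.glue (p := N ∩ Ioc y x) (q := N ∩ Ioc y x) ?_ ?_ (Iso.refl _) ?_
  · exact ⟨fun w hw => ⟨hw.1, hw.2.1⟩, fun w hw v hv hvw => ⟨hv.1, hv.2, hvw.trans hw.2.2⟩⟩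
  · exact ⟨fun w hw => ⟨hw.1, hw.2.1, hw.2.2.trans hxb⟩,
      fun w hw v hv hvw => ⟨hv.1, hv.2.1, hvw.trans hw.2.2⟩⟩
  · have e1 : (N ∩ Ioi y) \ (N ∩ Ioc y x) = N ∩ Ioi x := by
      ext w
      simp only [mem_sdiff, mem_inter_iff, mem_Ioc, mem_Ioi, not_and, not_le]
      constructor
      · rintro ⟨⟨h1, h2⟩, h4⟩
        exact ⟨h1, h4 h1 h2⟩
      · rintro ⟨h1, h2⟩
        exact ⟨⟨h1, hyx.trans_lt h2⟩, fun _ _ => h2⟩
    have e2 : (N ∩ Ioc y b) \ (N ∩ Ioc y x) = N ∩ Ioc x b := by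
      ext w
      simp only [mem_sdiff, mem_inter_iff, mem_Ioc, not_and, not_le]
      constructor
      · rintro ⟨⟨h1, h2, h3⟩, h4⟩
        exact ⟨h1, h4 h1 h2, h3⟩
      · rintro ⟨h1, h2, h3⟩
        exact ⟨⟨h1, hyx.trans_lt h2, h3⟩, fun _ _ => h2⟩
    rwa [e1, e2]

/-- Forced data glue to an initial embedding. -/
theorem ini_of_forced [Countable α] {A : Set α} {K : Set β} (hA : A.Nonempty)
    (hbd : ∀ a ∈ A, ∃ e ∈ A, e ∉ hull A (A ∩ Iic a)) (h : Forced A K) : Ini A K := by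
  classical
  obtain ⟨a₀, ha₀⟩ := hA
  have : Nonempty α := ⟨a₀⟩
  obtain ⟨q, hq⟩ := exists_surjective_nat α
  have step : ∀ (a : A) (r : α), ∃ b : A, (b : α) ∉ hull A (A ∩ Iic a) ∧ (r ∈ A → r ≤ b) := by
    rintro ⟨a, ha⟩ r
    obtain ⟨e, he, he'⟩ := hbd a ha
    by_cases hr : r ∈ A
    · rcases le_total r e with h | h
      · exact ⟨⟨e, he⟩, he', fun _ => h⟩
      · exact ⟨⟨r, hr⟩, fun hc => he' ((isInit_hull _ _).2 r hc e he h), fun _ => le_rfl⟩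
    · exact ⟨⟨e, he⟩, he', fun h => (hr h).elim⟩
  choose nx h1 h2 using step
  let f : ℕ → A := fun n => Nat.rec ⟨a₀, ha₀⟩ (fun n s => nx s (q n)) n
  have hf : ∀ n, f (n + 1) = nx (f n) (q n) := fun n => rfl
  have hnot : ∀ n : ℕ, (f (n + 1)).1 ∉ hull A (A ∩ Iic (f n).1) := by
    intro n; exact h1 (f n) (q n)
  have hcof : ∀ n : ℕ, q n ∈ A → q n ≤ (f (n + 1)).1 := by
    intro n; exact h2 (f n) (q n)
  refine ⟨⋃ i, hull K (A ∩ Iic (f i).1), IsInit.iUnion fun i => isInit_hull _ _, ?_⟩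
  have hU : A = ⋃ i, hull A (A ∩ Iic (f i).1) := by
    apply subset_antisymm
    · intro w hw
      obtain ⟨n, rfl⟩ := hq w
      exact mem_iUnion.2 ⟨n + 1, (isInit_hull _ _).2 _ (mem_hull_self (f (n + 1)).2) _ hw
        (hcof n hw)⟩
    · exact iUnion_subset fun i => (isInit_hull _ _).1
  have key : Iso (⋃ i, hull A (A ∩ Iic (f i).1)) (⋃ i, hull K (A ∩ Iic (f i).1)) := by
    refine iso_chain (A := A) (K := K) (fun i => isInit_hull _ _) (fun i => isInit_hull _ _)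
      (fun i => ?_) (fun i => ?_) (h.1 _ (f 0).2) (fun i => ?_)
    · rcases (isInit_hull A (A ∩ Iic (f i).1)).total (isInit_hull A (A ∩ Iic (f (i + 1)).1))
        with hs | hs
      · exact hs
      · exact (hnot i (hs (mem_hull_self (f (i + 1)).2))).elim
    · exact (h.2 _ (f i).2 _ (f (i + 1)).2 (hnot i)).1
    · exact (h.2 _ (f i).2 _ (f (i + 1)).2 (hnot i)).2
  rwa [← hU] at key

/-- If `φ : A → K` is an isomorphism onto an initial segment and `A` is not isomorphic to a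
bounded initial segment of itself, then the data are forced. -/
theorem forced_of_ini {A : Set α} {K : Set β} (h : Ini A K)
    (hS : ∀ a ∈ A, ¬ Ini A (A ∩ Iic a)) : Forced A K := by
  obtain ⟨u, hu, R, hR⟩ := h
  -- the hull of the target is the image of the hull
  have himg : ∀ a ∈ A, hull K (A ∩ Iic a) = {y | ∃ x ∈ hull A (A ∩ Iic a), R x y} := by
    intro a ha
    ext y
    constructor
    · rintro ⟨hy, k', hk', hyk', hI⟩
      have hk'u : k' ∈ u := by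
        by_contra hc
        apply hS a ha
        have h1 : IsInit u (K ∩ Iic k') := by
          refine ⟨fun w hw => ⟨hu.1 hw, ?_⟩, fun w hw v hv hvw => hu.2 w hw v hv.1 hvw⟩
          by_contra hwk
          exact hc (hu.2 w hw k' hk' (le_of_lt (not_le.1 hwk)))
        exact (Iso.ini ⟨R, hR⟩).trans (h1.ini.trans hI.ini)
      have hyu : y ∈ u := hu.2 k' hk'u y hy hyk'
      obtain ⟨x, hx⟩ := hR.ran y hyu
      obtain ⟨x', hx'⟩ := hR.ran k' hk'u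
      refine ⟨x, ⟨hR.left hx, x', hR.left hx', (hR.le_iff hx hx').2 hyk', ?_⟩, hx⟩
      have e : u ∩ Iic k' = K ∩ Iic k' := by
        ext w
        constructor
        · rintro ⟨h1, h2⟩; exact ⟨hu.1 h1, h2⟩
        · rintro ⟨h1, h2⟩; exact ⟨hu.2 k' hk'u w h1 h2, h2⟩
      have h1 := hR.iso_Iic hx'
      rw [e] at h1
      exact h1.trans hI
    · rintro ⟨x, ⟨hx, x', hx', hxx', hI⟩, hxy⟩
      obtain ⟨y', hy'⟩ := hR.dom x' hx'
      refine ⟨hu.1 (hR.right hxy), y', hu.1 (hR.right hy'), (hR.le_iff hxy hy').1 hxx', ?_⟩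
      have e : u ∩ Iic y' = K ∩ Iic y' := by
        ext w
        constructor
        · rintro ⟨h1, h2⟩; exact ⟨hu.1 h1, h2⟩
        · rintro ⟨h1, h2⟩; exact ⟨hu.2 y' (hR.right hy') w h1 h2, h2⟩
      have h1 := hR.iso_Iic hy'
      rw [e] at h1
      exact h1.symm.trans hI
  refine ⟨fun a ha => ?_, fun a ha b hb hab => ?_⟩
  · rw [himg a ha]
    exact ⟨_, hR.image (isInit_hull _ _).1⟩
  · have hsub : hull A (A ∩ Iic a) ⊆ hull A (A ∩ Iic b) := by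
      rcases (isInit_hull A (A ∩ Iic a)).total (isInit_hull A (A ∩ Iic b)) with hs | hs
      · exact hs
      · exact (hab (hs (mem_hull_self hb))).elim
    rw [himg a ha, himg b hb]
    refine ⟨?_, ?_⟩
    · rintro y ⟨x, hx, hxy⟩
      exact ⟨x, hsub hx, hxy⟩
    · have e : {y | ∃ x ∈ hull A (A ∩ Iic b), R x y} \ {y | ∃ x ∈ hull A (A ∩ Iic a), R x y} =
          {y | ∃ x ∈ hull A (A ∩ Iic b) \ hull A (A ∩ Iic a), R x y} := by
        ext y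
        constructor
        · rintro ⟨⟨x, hx, hxy⟩, h2⟩
          exact ⟨x, ⟨hx, fun hc => h2 ⟨x, hc, hxy⟩⟩, hxy⟩
        · rintro ⟨x, ⟨hx, hx2⟩, hxy⟩
          refine ⟨⟨x, hx, hxy⟩, ?_⟩
          rintro ⟨x', hx', hxy'⟩
          have : x = x' := (hR.eq_iff hxy hxy').2 rfl
          exact hx2 (this ▸ hx')
      rw [e]
      exact ⟨_, hR.image (fun x hx => (isInit_hull _ _).1 hx.1)⟩

/-- The main characterisation of `Ini N M` for `N` without last element. -/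
theorem ini_iff [Countable α] {N : Set α} {M : Set β} (hne : N.Nonempty)
    (hnl : ∀ x ∈ N, ∃ y ∈ N, x < y) :
    Ini N M ↔ ((∀ a ∈ N, G N a) ∧ ∀ c ∈ N, ∃ d ∈ M, Iso (N ∩ Iic c) (M ∩ Iic d)) ∨
      ∃ x ∈ N, ∃ x' ∈ M, Iso (N ∩ Iic x) (M ∩ Iic x') ∧ ¬ Rec N x ∧
        Forced (N ∩ Ioi x) (M ∩ Ioi x') := by
  constructor
  · rintro ⟨u, hu, R, hR⟩
    have hIic : ∀ y ∈ u, u ∩ Iic y = M ∩ Iic y := by
      intro y hy
      ext w
      constructor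
      · rintro ⟨h1, h2⟩; exact ⟨hu.1 h1, h2⟩
      · rintro ⟨h1, h2⟩; exact ⟨hu.2 y hy w h1 h2, h2⟩
    by_cases hall : ∀ a ∈ N, G N a
    · refine Or.inl ⟨hall, fun c hc => ?_⟩
      obtain ⟨d, hd⟩ := hR.dom c hc
      refine ⟨d, hu.1 (hR.right hd), ?_⟩
      have := hR.iso_Iic hd
      rwa [hIic d (hR.right hd)] at this
    · push Not at hall
      obtain ⟨x, hx, hGx⟩ := hall
      obtain ⟨x', hx'⟩ := hR.dom x hx
      refine Or.inr ⟨x, hx, x', hu.1 (hR.right hx'), ?_, fun h => hGx (claim2 h), ?_⟩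
      · have := hR.iso_Iic hx'
        rwa [hIic x' (hR.right hx')] at this
      · refine forced_of_ini ⟨u ∩ Ioi x', ⟨?_, ?_⟩, hR.iso_Ioi hx'⟩ ?_
        · rintro w ⟨h1, h2⟩; exact ⟨hu.1 h1, h2⟩
        · rintro w ⟨h1, h2⟩ v ⟨h3, h4⟩ hvw; exact ⟨hu.2 w h1 v h3 hvw, h4⟩
        · rintro a ⟨ha, hxa⟩ hI
          refine hGx (G_of_ini ha hxa ?_)
          have e : N ∩ Ioi x ∩ Iic a = N ∩ Ioc x a := by
            rw [inter_assoc, Ioi_inter_Iic]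
          rwa [e] at hI
  · rintro (⟨hG, h⟩ | ⟨x, hx, x', hx', hI, hR, hF⟩)
    · obtain ⟨x, hx⟩ := hne
      obtain ⟨b, hb, hxb, hI⟩ := claim1 hG hx
      obtain ⟨d, hd, hI2⟩ := h b hb
      have h1 : Ini N (N ∩ Iic b) := by
        refine Ini.glue (p := N ∩ Iic x) (q := N ∩ Iic x) (isInit_inter_Iic _ _) ?_
          (Iso.refl _) ?_
        · exact ⟨fun w hw => ⟨hw.1, le_trans hw.2 hxb.le⟩,
            fun w hw v hv hvw => ⟨hv.1, hvw.trans hw.2⟩⟩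
        · have e1 : N \ (N ∩ Iic x) = N ∩ Ioi x := by
            ext w
            simp only [mem_sdiff, mem_inter_iff, mem_Iic, mem_Ioi, not_and, not_le]
            exact ⟨fun h => ⟨h.1, h.2 h.1⟩, fun h => ⟨h.1, fun _ => h.2⟩⟩
          have e2 : (N ∩ Iic b) \ (N ∩ Iic x) = N ∩ Ioc x b := by
            ext w
            simp only [mem_sdiff, mem_inter_iff, mem_Iic, mem_Ioc, not_and, not_le]
            exact ⟨fun h => ⟨h.1.1, h.2 h.1.1, h.1.2⟩, fun h => ⟨⟨h.1, h.2.2⟩, fun _ => h.2.1⟩⟩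
          rwa [e1, e2]
      exact h1.trans (hI2.ini.trans (isInit_inter_Iic _ _).ini)
    · refine Ini.glue (isInit_inter_Iic N x) (isInit_inter_Iic M x') hI ?_
      have e1 : N \ (N ∩ Iic x) = N ∩ Ioi x := by
        ext w
        simp only [mem_sdiff, mem_inter_iff, mem_Iic, mem_Ioi, not_and, not_le]
        exact ⟨fun h => ⟨h.1, h.2 h.1⟩, fun h => ⟨h.1, fun _ => h.2⟩⟩
      have e2 : M \ (M ∩ Iic x') = M ∩ Ioi x' := by
        ext w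
        simp only [mem_sdiff, mem_inter_iff, mem_Iic, mem_Ioi, not_and, not_le]
        exact ⟨fun h => ⟨h.1, h.2 h.1⟩, fun h => ⟨h.1, fun _ => h.2⟩⟩
      rw [e1, e2]
      obtain ⟨y, hy, hxy⟩ := hnl x hx
      refine ini_of_forced ⟨y, hy, hxy⟩ ?_ hF
      rintro a ⟨ha, hxa⟩
      have : ¬ ∀ e ∈ N, ∃ c ∈ N, e ≤ c ∧ x < c ∧ Iso (N ∩ Ioc x c) (N ∩ Ioc x a) :=
        fun h => hR ⟨a, ha, hxa, h⟩
      push Not at this
      obtain ⟨e, he, h⟩ := this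
      have hxe : x < e := by
        by_contra hc
        exact h a ha ((not_lt.1 hc).trans (le_of_lt hxa)) hxa (Iso.refl _)
      refine ⟨e, ⟨he, hxe⟩, ?_⟩
      rintro ⟨_, c, ⟨hc, hxc⟩, hec, hI⟩
      refine h c hc hec hxc ?_
      rwa [inter_assoc, inter_assoc, Ioi_inter_Iic, Ioi_inter_Iic] at hI

/-- The case of a last element. -/
theorem ini_iff_of_last {N : Set α} {M : Set β} {m : α} (hm : m ∈ N) (hlast : ∀ x ∈ N, x ≤ m) :
    Ini N M ↔ ∃ d ∈ M, Iso (N ∩ Iic m) (M ∩ Iic d) := by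
  have e : N ∩ Iic m = N := inter_eq_left.2 hlast
  constructor
  · rintro ⟨u, hu, R, hR⟩
    obtain ⟨d, hd⟩ := hR.dom m hm
    refine ⟨d, hu.1 (hR.right hd), ?_⟩
    have := hR.iso_Iic hd
    have e2 : u ∩ Iic d = M ∩ Iic d := by
      ext w
      constructor
      · rintro ⟨h1, h2⟩; exact ⟨hu.1 h1, h2⟩
      · rintro ⟨h1, h2⟩; exact ⟨hu.2 d (hR.right hd) w h1 h2, h2⟩
    rwa [e2] at this
  · rintro ⟨d, _, h⟩
    rw [e] at h
    exact h.ini.trans (isInit_inter_Iic _ _).ini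

end Pool.Agent.Lib.MP_9f2d77_lc
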