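import Pool.Agent.Lib.MP_9f2d77_lc.Basic

/-! The isomorphism class of a countable linear order is Borel. -/

namespace Pool.Agent.Lib.MP_9f2d77_lc

open Set

/-- Back and forth. -/
theorem iso_of_backForth {α β : Type*} [LinearOrder α] [LinearOrder β] [Countable α]
    [Countable β] {C : Set α} {D : Set β} (Good : List (α × β) → Prop) (h0 : Good [])
    (hsub : ∀ L, Good L → ∀ p ∈ L, p.1 ∈ C ∧ p.2 ∈ D)
    (hord : ∀ L, Good L → ∀ p ∈ L, ∀ q ∈ L, (p.1 < q.1 ↔ p.2 < q.2))
    (hf : ∀ L, Good L → ∀ c ∈ C, ∃ d, Good ((c, d) :: L))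
    (hb : ∀ L, Good L → ∀ d ∈ D, ∃ c, Good ((c, d) :: L)) : Iso C D := by
  classical
  have hstep : ∀ (L : {L // Good L}) (x : α ⊕ β), ∃ L' : {L // Good L}, L.1 ⊆ L'.1 ∧
      (∀ c, x = Sum.inl c → c ∈ C → ∃ d, (c, d) ∈ L'.1) ∧
      (∀ d, x = Sum.inr d → d ∈ D → ∃ c, (c, d) ∈ L'.1) := by
    rintro ⟨L, hL⟩ (c | d)
    · by_cases hc : c ∈ C
      · obtain ⟨d, hd⟩ := hf L hL c hc
        refine ⟨⟨_, hd⟩, List.subset_cons_self _ _, ?_, ?_⟩
        · rintro _ h _; cases h; exact ⟨d, List.mem_cons_self⟩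
        · rintro _ h; cases h
      · refine ⟨⟨L, hL⟩, List.Subset.refl _, ?_, ?_⟩
        · rintro _ h h'; cases h; exact (hc h').elim
        · rintro _ h; cases h
    · by_cases hd : d ∈ D
      · obtain ⟨c, hc⟩ := hb L hL d hd
        refine ⟨⟨_, hc⟩, List.subset_cons_self _ _, ?_, ?_⟩
        · rintro _ h; cases h
        · rintro _ h _; cases h; exact ⟨c, List.mem_cons_self⟩
      · refine ⟨⟨L, hL⟩, List.Subset.refl _, ?_, ?_⟩
        · rintro _ h; cases h
        · rintro _ h h'; cases h; exact (hd h').elim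
  choose nx h1 h2 h3 using hstep
  by_cases hne : Nonempty (α ⊕ β)
  swap
  · refine ⟨fun _ _ => False, ⟨fun x _ => (hne ⟨Sum.inl x⟩).elim,
      fun y _ => (hne ⟨Sum.inr y⟩).elim, fun h => h.elim, fun h => h.elim, fun h => h.elim⟩⟩
  obtain ⟨q, hq⟩ := exists_surjective_nat (α ⊕ β)
  let f : ℕ → {L // Good L} := fun n => Nat.rec ⟨[], h0⟩ (fun n s => nx s (q n)) n
  have hf : ∀ n, f (n + 1) = nx (f n) (q n) := fun n => rfl
  have hmono : ∀ m n, m ≤ n → (f m).1 ⊆ (f n).1 := by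
    intro m n hmn
    induction hmn with
    | refl => exact List.Subset.refl _
    | step _ ih => exact fun x hx => h1 _ _ (ih hx)
  refine ⟨fun c d => ∃ n, (c, d) ∈ (f n).1, ⟨?_, ?_, ?_, ?_, ?_⟩⟩
  · intro c hc
    obtain ⟨n, hn⟩ := hq (Sum.inl c)
    obtain ⟨d, hd⟩ := h2 (f n) (q n) c hn hc
    exact ⟨d, n + 1, hd⟩
  · intro d hd
    obtain ⟨n, hn⟩ := hq (Sum.inr d)
    obtain ⟨c, hc⟩ := h3 (f n) (q n) d hn hd
    exact ⟨c, n + 1, hc⟩
  · rintro c d ⟨n, hn⟩
    exact (hsub _ (f n).2 _ hn).1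
  · rintro c d ⟨n, hn⟩
    exact (hsub _ (f n).2 _ hn).2
  · rintro c d c' d' ⟨n, hn⟩ ⟨m, hm⟩
    exact hord _ (f (max n m)).2 (c, d) (hmono _ _ (le_max_left _ _) hn) (c', d')
      (hmono _ _ (le_max_right _ _) hm)

/-- Isomorphism invariant Borel predicates of sets with tuples. -/
structure Inv (P : Set ℚ → List ℚ → Prop) : Prop where
  meas : ∀ l, Measurable (fun D => P D l)
  inv : ∀ {D D' R}, IsoRel D D' R → ∀ {l l'}, List.Forall₂ R l l' → P D l → P D' l'

namespace Inv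

theorem not {P : Set ℚ → List ℚ → Prop} (h : Inv P) : Inv (fun D l => ¬ P D l) where
  meas := fun l => (h.meas l).not
  inv := fun hR _ _ hl hP hP' => hP (h.inv hR.symm hl.flip hP')

theorem and {P Q : Set ℚ → List ℚ → Prop} (h : Inv P) (k : Inv Q) :
    Inv (fun D l => P D l ∧ Q D l) where
  meas := fun l => (h.meas l).and (k.meas l)
  inv := fun hR _ _ hl hP => ⟨h.inv hR hl hP.1, k.inv hR hl hP.2⟩

theorem all {ι : Type*} [Countable ι] {P : ι → Set ℚ → List ℚ → Prop} (h : ∀ i, Inv (P i)) :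
    Inv (fun D l => ∀ i, P i D l) where
  meas := fun l => Measurable.forall fun i => (h i).meas l
  inv := fun hR _ _ hl hP i => (h i).inv hR hl (hP i)

theorem ex {P : Set ℚ → List ℚ → Prop} (h : Inv P) :
    Inv (fun D l => ∃ d, d ∈ D ∧ P D (d :: l)) where
  meas := fun l => Measurable.exists fun d => (measurable_set_mem d).and (h.meas (d :: l))
  inv := by
    rintro D D' R hR l l' hl ⟨d, hd, hP⟩
    obtain ⟨d', hd'⟩ := hR.dom d hd
    exact ⟨d', hR.right hd', h.inv hR (List.Forall₂.cons hd' hl) hP⟩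

theorem const (p : Prop) : Inv (fun _ _ => p) where
  meas := fun _ => measurable_const
  inv := fun _ _ _ _ h => h

end Inv

/-- The `i`-th element is less than the `j`-th. -/
def Lt (i j : ℕ) (m : List ℚ) : Prop := ∃ a b, m[i]? = some a ∧ m[j]? = some b ∧ a < b

/-- `m` is a tuple in `D` with the same order type as `l`. -/
def Ord (l : List ℚ) (D : Set ℚ) (m : List ℚ) : Prop :=
  (m.length = l.length ∧ ∀ b ∈ m, b ∈ D) ∧ ∀ i j, Lt i j m ↔ Lt i j l

theorem forall₂_getElem? {R : ℚ → ℚ → Prop} {l l' : List ℚ} (h : List.Forall₂ R l l') {i : ℕ}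
    {a : ℚ} (ha : l[i]? = some a) : ∃ a', l'[i]? = some a' ∧ R a a' := by
  induction h generalizing i with
  | nil => simp at ha
  | @cons x y l l' hxy h ih =>
    cases i with
    | zero =>
      simp only [List.getElem?_cons_zero, Option.some.injEq] at ha
      subst ha
      exact ⟨y, by simp, hxy⟩
    | succ i =>
      simp only [List.getElem?_cons_succ] at ha
      obtain ⟨a', h1, h2⟩ := ih ha
      exact ⟨a', by simpa using h1, h2⟩

theorem Lt.forall₂ {D D' : Set ℚ} {R : ℚ → ℚ → Prop} (hR : IsoRel D D' R) {l l' : List ℚ}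
    (h : List.Forall₂ R l l') {i j : ℕ} (hl : Lt i j l) : Lt i j l' := by
  obtain ⟨a, b, ha, hb, hab⟩ := hl
  obtain ⟨a', ha', h1⟩ := forall₂_getElem? h ha
  obtain ⟨b', hb', h2⟩ := forall₂_getElem? h hb
  exact ⟨a', b', ha', hb', (hR.lt_iff h1 h2).1 hab⟩

theorem Ord.inv (l : List ℚ) : Inv (Ord l) where
  meas := by
    intro m
    refine (measurable_const.and ?_).and measurable_const
    exact Measurable.forall fun b => measurable_const.imp (measurable_set_mem b)
  inv := by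
    rintro D D' R hR m m' hm ⟨⟨h1, h2⟩, h3⟩
    refine ⟨⟨hm.length_eq ▸ h1, ?_⟩, fun i j => ?_⟩
    · intro b hb
      obtain ⟨i, hi⟩ := List.mem_iff_getElem?.1 hb
      obtain ⟨a, _, h⟩ := forall₂_getElem? hm.flip hi
      exact hR.right h
    · rw [← h3 i j]
      exact ⟨fun h => Lt.forall₂ hR.symm hm.flip h, fun h => Lt.forall₂ hR hm h⟩

/-- Tuples of `C` which are not separated by invariant Borel predicates. -/
def Eqv (C : Set ℚ) (l l' : List ℚ) : Prop := ∀ P, Inv P → (P C l ↔ P C l')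

theorem exists_sep (C : Set ℚ) (l l' : List ℚ) :
    ∃ P, Inv P ∧ P C l ∧ (¬ Eqv C l l' → ¬ P C l') := by
  by_cases h : Eqv C l l'
  · exact ⟨fun _ _ => True, Inv.const True, trivial, fun h' => (h' h).elim⟩
  · have h' := h
    unfold Eqv at h'
    push Not at h'
    obtain ⟨P, hP, hPP⟩ := h'
    rcases hPP with ⟨h1, h2⟩ | ⟨h1, h2⟩
    · exact ⟨P, hP, h1, fun _ => h2⟩
    · exact ⟨fun D m => ¬ P D m, hP.not, h1, fun _ h3 => h3 h2⟩

theorem forall₂_exists {D D' : Set ℚ} {R : ℚ → ℚ → Prop} (hR : IsoRel D D' R) :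
    ∀ l : List ℚ, (∀ c ∈ l, c ∈ D) → ∃ l', List.Forall₂ R l l'
  | [], _ => ⟨[], List.Forall₂.nil⟩
  | c :: l, h => by
    obtain ⟨l', hl'⟩ := forall₂_exists hR l fun x hx => h x (List.mem_cons_of_mem _ hx)
    obtain ⟨d, hd⟩ := hR.dom c (h c List.mem_cons_self)
    exact ⟨d :: l', List.Forall₂.cons hd hl'⟩

/-- The isomorphism class of a countable order is Borel. -/
theorem measurable_iso (C : Set ℚ) : Measurable (fun D : Set ℚ => Iso D C) := by
  classical
  choose sep hsI hsC hsN using exists_sep C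
  let Φ : List ℚ → Set ℚ → List ℚ → Prop := fun l D m => Ord l D m ∧ ∀ l', sep l l' D m
  have hΦI : ∀ l, Inv (Φ l) := fun l => (Ord.inv l).and (Inv.all fun l' => hsI l l')
  have hΦC : ∀ l, (∀ c ∈ l, c ∈ C) → Φ l C l := fun l hl =>
    ⟨⟨⟨rfl, hl⟩, fun _ _ => Iff.rfl⟩, fun l' => hsC l l'⟩
  have hΦE : ∀ l l', Φ l C l' → Eqv C l l' := by
    intro l l' h
    by_contra hc
    exact hsN l l' hc (h.2 l')
  let σ : Set ℚ → Prop := fun D => Φ [] D [] ∧ ∀ l m, (∀ c ∈ l, c ∈ C) → Φ l D m →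
    (∀ c, c ∈ C → ∃ d, d ∈ D ∧ Φ (c :: l) D (d :: m)) ∧
    (∀ d, d ∈ D → ∃ c, c ∈ C ∧ Φ (c :: l) D (d :: m))
  have hσm : Measurable σ := by
    refine ((hΦI []).meas []).and (Measurable.forall fun l => Measurable.forall fun m =>
      measurable_const.imp (((hΦI l).meas m).imp (Measurable.and ?_ ?_)))
    · exact Measurable.forall fun c => measurable_const.imp (Measurable.exists fun d =>
        (measurable_set_mem d).and ((hΦI (c :: l)).meas (d :: m)))
    · exact Measurable.forall fun d => (measurable_set_mem d).imp (Measurable.exists fun c =>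
        measurable_const.and ((hΦI (c :: l)).meas (d :: m)))
  have hσC : σ C := by
    refine ⟨hΦC [] (by simp), fun l m hl hm => ?_⟩
    have hE := hΦE l m hm
    have hmC : ∀ d ∈ m, d ∈ C := hm.1.1.2
    constructor
    · intro c hc
      exact (hE _ (hΦI (c :: l)).ex).1 ⟨c, hc, hΦC _ (by
        intro x hx
        rcases List.mem_cons.1 hx with rfl | hx
        exacts [hc, hl x hx])⟩
    · intro d hd
      obtain ⟨c, hc, h⟩ := (hE _ (hΦI (d :: m)).ex).2 ⟨d, hd, hΦC _ (by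
        intro x hx
        rcases List.mem_cons.1 hx with rfl | hx
        exacts [hd, hmC x hx])⟩
      refine ⟨c, hc, (hΦE _ _ h (Φ (c :: l)) (hΦI _)).2 (hΦC _ ?_)⟩
      intro x hx
      rcases List.mem_cons.1 hx with rfl | hx
      exacts [hc, hl x hx]
  have key : ∀ D : Set ℚ, Iso D C ↔ σ D := by
    intro D
    constructor
    · intro h
      obtain ⟨R, hR⟩ := h.symm
      refine ⟨(hΦI []).inv hR List.Forall₂.nil hσC.1, fun l m hl hm => ?_⟩
      obtain ⟨m', hm'⟩ := forall₂_exists hR.symm m hm.1.1.2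
      have hm'' : List.Forall₂ R m' m := hm'.flip
      have h1 : Φ l C m' := (hΦI l).inv hR.symm hm' hm
      obtain ⟨h2, h3⟩ := hσC.2 l m' hl h1
      constructor
      · intro c hc
        obtain ⟨d, hd, h4⟩ := h2 c hc
        obtain ⟨d', hd'⟩ := hR.dom d hd
        exact ⟨d', hR.right hd', (hΦI _).inv hR (List.Forall₂.cons hd' hm'') h4⟩
      · intro d hd
        obtain ⟨d', hd'⟩ := hR.ran d hd
        obtain ⟨c, hc, h4⟩ := h3 d' (hR.left hd')
        exact ⟨c, hc, (hΦI _).inv hR (List.Forall₂.cons hd' hm'') h4⟩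
    · rintro ⟨h1, h2⟩
      refine Iso.symm (iso_of_backForth (fun L : List (ℚ × ℚ) => (∀ c ∈ L.map Prod.fst, c ∈ C) ∧
        Φ (L.map Prod.fst) D (L.map Prod.snd)) ⟨by simp, h1⟩ ?_ ?_ ?_ ?_)
      · rintro L ⟨h3, h4⟩ p hp
        exact ⟨h3 _ (List.mem_map_of_mem hp), h4.1.1.2 _ (List.mem_map_of_mem hp)⟩
      · rintro L ⟨h3, h4⟩ p hp q hq
        obtain ⟨i, hi⟩ := List.mem_iff_getElem?.1 hp
        obtain ⟨j, hj⟩ := List.mem_iff_getElem?.1 hq
        have h5 := h4.1.2 i j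
        unfold Lt at h5
        simp only [List.getElem?_map, hi, hj, Option.map_some, Option.some.injEq] at h5
        constructor
        · intro h
          obtain ⟨a, b, rfl, rfl, hab⟩ := h5.2 ⟨_, _, rfl, rfl, h⟩
          exact hab
        · intro h
          obtain ⟨a, b, rfl, rfl, hab⟩ := h5.1 ⟨_, _, rfl, rfl, h⟩
          exact hab
      · rintro L ⟨h3, h4⟩ c hc
        obtain ⟨d, hd, h5⟩ := (h2 _ _ h3 h4).1 c hc
        refine ⟨d, ?_, h5⟩
        intro x hx
        rcases List.mem_cons.1 hx with rfl | hx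
        exacts [hc, h3 x hx]
      · rintro L ⟨h3, h4⟩ d hd
        obtain ⟨c, hc, h5⟩ := (h2 _ _ h3 h4).2 d hd
        refine ⟨c, ?_, h5⟩
        intro x hx
        rcases List.mem_cons.1 hx with rfl | hx
        exacts [hc, h3 x hx]
  have : (fun D : Set ℚ => Iso D C) = σ := by
    funext D
    exact propext (key D)
  rw [this]
  exact hσm

end Pool.Agent.Lib.MP_9f2d77_lc
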