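import Pool.Agent.Lib.MP_9f2d77_lc.Init
import Pool.Agent.Lib.MP_9f2d77_lc.Scott

/-! Borelness of the relation: isomorphic to an initial segment of. -/

namespace Pool.Agent.Lib.MP_9f2d77_lc

open Set

variable {α β γ : Type*} [LinearOrder α] [LinearOrder β] [LinearOrder γ]

theorem hull_image {s : Set α} {t : Set β} {R : α → β → Prop} (hR : IsoRel s t R)
    {U : Set γ} {δ : Type*} [LinearOrder δ] {V : Set δ} (hU : Iso U V) :
    {y | ∃ x ∈ hull s U, R x y} = hull t V := by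
  ext y
  constructor
  · rintro ⟨x, ⟨hx, x', hx', hxx', hI⟩, hxy⟩
    obtain ⟨y', hy'⟩ := hR.dom x' hx'
    exact ⟨hR.right hxy, y', hR.right hy', (hR.le_iff hxy hy').1 hxx',
      (hR.iso_Iic hy').symm.trans (hI.trans hU)⟩
  · rintro ⟨hy, y', hy', hyy', hI⟩
    obtain ⟨x, hx⟩ := hR.ran y hy
    obtain ⟨x', hx'⟩ := hR.ran y' hy'
    exact ⟨x, ⟨hR.left hx, x', hR.left hx', (hR.le_iff hx hx').2 hyy',
      (hR.iso_Iic hx').trans (hI.trans hU.symm)⟩, hx⟩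

theorem hull_eq_of_bound {A : Set α} {a e : α} (he : e ∈ A) (ha : a ∈ A)
    (h : e ∉ hull A (A ∩ Iic a)) :
    hull A (A ∩ Iic a) = hull (A ∩ Iic e) ((A ∩ Iic e) ∩ Iic a) := by
  have hlt : ∀ k ∈ A, Iso (A ∩ Iic k) (A ∩ Iic a) → k < e := by
    intro k hk hI
    by_contra hc
    exact h ⟨he, k, hk, not_lt.1 hc, hI⟩
  have hc : ∀ k, k ≤ e → A ∩ Iic e ∩ Iic k = A ∩ Iic k := by
    intro k hk
    ext w
    simp only [mem_inter_iff, mem_Iic]
    exact ⟨fun h => ⟨h.1.1, h.2⟩, fun h => ⟨⟨h.1, h.2.trans hk⟩, h.2⟩⟩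
  have hae : a ≤ e := (hlt a ha (Iso.refl _)).le
  rw [hc a hae]
  ext k
  constructor
  · rintro ⟨hk, k', hk', hkk', hI⟩
    have := hlt k' hk' hI
    refine ⟨⟨hk, hkk'.trans this.le⟩, k', ⟨hk', this.le⟩, hkk', ?_⟩
    rwa [hc k' this.le]
  · rintro ⟨hk, k', hk', hkk', hI⟩
    rw [hc k' hk'.2] at hI
    exact ⟨hk.1, k', hk'.1, hkk', hI⟩

variable {ι : Type*}

/-- Isomorphic, as witnessed by a member of the family. -/
def IsoC (𝒟 : ι → Set ℚ) (U V : Set ℚ) : Prop := ∃ i, Iso U (𝒟 i) ∧ Iso V (𝒟 i)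

theorem IsoC.iso {𝒟 : ι → Set ℚ} {U V : Set ℚ} (h : IsoC 𝒟 U V) : Iso U V :=
  let ⟨_, h1, h2⟩ := h; h1.trans h2.symm

theorem isoC_iff_left {𝒟 : ι → Set ℚ} {U V : Set ℚ} (h : ∃ i, Iso U (𝒟 i)) :
    IsoC 𝒟 U V ↔ Iso U V :=
  ⟨IsoC.iso, fun k => let ⟨i, hi⟩ := h; ⟨i, hi, k.symm.trans hi⟩⟩

theorem isoC_iff_right {𝒟 : ι → Set ℚ} {U V : Set ℚ} (h : ∃ i, Iso V (𝒟 i)) :
    IsoC 𝒟 U V ↔ Iso U V :=
  ⟨IsoC.iso, fun k => let ⟨i, hi⟩ := h; ⟨i, k.trans hi, hi⟩⟩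

/-- All bounded pieces of `N` are in the family. -/
def Tm (𝒞 : ι → Set ℚ) (N : Set ℚ) : Prop :=
  (∀ x, x ∈ N → ∃ i, Iso (N ∩ Iic x) (𝒞 i)) ∧
  ∀ x y, x ∈ N → y ∈ N → x < y → ∃ i, Iso (N ∩ Ioc x y) (𝒞 i)

/-- The derived family. -/
def der (𝒞 : ι → Set ℚ) : ι ⊕ (ι × ℚ) ⊕ (ι × ℚ × ℚ) → Set ℚ
  | Sum.inl i => 𝒞 i
  | Sum.inr (Sum.inl (i, c)) => hull (𝒞 i) (𝒞 i ∩ Iic c)
  | Sum.inr (Sum.inr (i, c, d)) => hull (𝒞 i) (𝒞 i ∩ Iic d) \ hull (𝒞 i) (𝒞 i ∩ Iic c)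

section formula

variable (𝒟 : ι → Set ℚ)

def GC (N : Set ℚ) (a : ℚ) : Prop :=
  ∃ b, b ∈ N ∧ a < b ∧ ∀ c, c ∈ N → a < c → ∃ d, d ∈ N ∧ a < d ∧ d ≤ b ∧
    IsoC 𝒟 (N ∩ Ioc a c) (N ∩ Ioc a d)

def RecC (N : Set ℚ) (a : ℚ) : Prop :=
  ∃ b, b ∈ N ∧ a < b ∧ ∀ e, e ∈ N → ∃ c, c ∈ N ∧ e ≤ c ∧ a < c ∧
    IsoC 𝒟 (N ∩ Ioc a c) (N ∩ Ioc a b)

def hullC (K U : Set ℚ) : Set ℚ :=
  {k | k ∈ K ∧ ∃ k', k' ∈ K ∧ k ≤ k' ∧ IsoC 𝒟 (K ∩ Iic k') U}

def ForcedC (A K : Set ℚ) : Prop :=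
  (∀ a, a ∈ A → IsoC 𝒟 (hullC 𝒟 A (A ∩ Iic a)) (hullC 𝒟 K (A ∩ Iic a))) ∧
  ∀ a b, a ∈ A → b ∈ A → b ∉ hullC 𝒟 A (A ∩ Iic a) →
    (∀ k, k ∈ hullC 𝒟 K (A ∩ Iic a) → k ∈ hullC 𝒟 K (A ∩ Iic b)) ∧
    IsoC 𝒟 (hullC 𝒟 A (A ∩ Iic b) \ hullC 𝒟 A (A ∩ Iic a))
      (hullC 𝒟 K (A ∩ Iic b) \ hullC 𝒟 K (A ∩ Iic a))

def FC (N M : Set ℚ) : Prop :=
  (∀ x, x ∉ N) ∨
  (∃ m, m ∈ N ∧ (∀ x, x ∈ N → x ≤ m) ∧ ∃ d, d ∈ M ∧ IsoC 𝒟 (N ∩ Iic m) (M ∩ Iic d)) ∨
  ((∃ x, x ∈ N) ∧ (∀ x, x ∈ N → ∃ y, y ∈ N ∧ x < y) ∧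
    (((∀ a, a ∈ N → GC 𝒟 N a) ∧ ∀ c, c ∈ N → ∃ d, d ∈ M ∧ IsoC 𝒟 (N ∩ Iic c) (M ∩ Iic d)) ∨
      ∃ x, x ∈ N ∧ ∃ x', x' ∈ M ∧ IsoC 𝒟 (N ∩ Iic x) (M ∩ Iic x') ∧ ¬ RecC 𝒟 N x ∧
        ForcedC 𝒟 (N ∩ Ioi x) (M ∩ Ioi x')))

end formula

theorem ini_iff_FC {𝒞 : ι → Set ℚ} {N M : Set ℚ} (hT : Tm 𝒞 N) :
    Ini N M ↔ FC (der 𝒞) N M := by
  have hIic : ∀ x ∈ N, ∃ i, Iso (N ∩ Iic x) (der 𝒞 i) := fun x hx =>
    let ⟨i, hi⟩ := hT.1 x hx; ⟨Sum.inl i, hi⟩
  have hIoc : ∀ x ∈ N, ∀ y ∈ N, x < y → ∃ i, Iso (N ∩ Ioc x y) (der 𝒞 i) :=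
    fun x hx y hy hxy => let ⟨i, hi⟩ := hT.2 x y hx hy hxy; ⟨Sum.inl i, hi⟩
  have hG : ∀ a ∈ N, GC (der 𝒞) N a ↔ G N a := by
    intro a ha
    constructor
    · rintro ⟨b, hb, hab, h⟩
      refine ⟨b, hb, hab, fun c hc hac => ?_⟩
      obtain ⟨d, hd, had, hdb, hI⟩ := h c hc hac
      exact ⟨d, hd, had, hdb, hI.iso⟩
    · rintro ⟨b, hb, hab, h⟩
      refine ⟨b, hb, hab, fun c hc hac => ?_⟩
      obtain ⟨d, hd, had, hdb, hI⟩ := h c hc hac
      exact ⟨d, hd, had, hdb, (isoC_iff_left (hIoc a ha c hc hac)).2 hI⟩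
  have hRec : ∀ a ∈ N, RecC (der 𝒞) N a ↔ Rec N a := by
    intro a ha
    constructor
    · rintro ⟨b, hb, hab, h⟩
      refine ⟨b, hb, hab, fun e he => ?_⟩
      obtain ⟨c, hc, h1, h2, hI⟩ := h e he
      exact ⟨c, hc, h1, h2, hI.iso⟩
    · rintro ⟨b, hb, hab, h⟩
      refine ⟨b, hb, hab, fun e he => ?_⟩
      obtain ⟨c, hc, h1, h2, hI⟩ := h e he
      exact ⟨c, hc, h1, h2, (isoC_iff_right (hIoc a ha b hb hab)).2 hI⟩
  rcases N.eq_empty_or_nonempty with rfl | hne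
  · exact iff_of_true ⟨∅, isInit_empty _, Iso.refl _⟩ (Or.inl fun _ h => h)
  by_cases hl : ∃ m ∈ N, ∀ x ∈ N, x ≤ m
  · obtain ⟨m, hm, hlast⟩ := hl
    rw [ini_iff_of_last hm hlast]
    constructor
    · rintro ⟨d, hd, h⟩
      exact Or.inr (Or.inl ⟨m, hm, hlast, d, hd, (isoC_iff_left (hIic m hm)).2 h⟩)
    · rintro (h | ⟨m', hm', hlast', d, hd, h⟩ | ⟨_, h, _⟩)
      · exact (h m hm).elim
      · have : m' = m := le_antisymm (hlast m' hm') (hlast' m hm)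
        subst this
        exact ⟨d, hd, h.iso⟩
      · obtain ⟨y, hy, hmy⟩ := h m hm
        exact ((hlast y hy).not_gt hmy).elim
  · have hnl : ∀ x ∈ N, ∃ y ∈ N, x < y := by
      push Not at hl
      exact hl
    rw [ini_iff hne hnl]
    have hfor : ∀ x ∈ N, ∀ x' ∈ M, ¬ Rec N x →
        (ForcedC (der 𝒞) (N ∩ Ioi x) (M ∩ Ioi x') ↔ Forced (N ∩ Ioi x) (M ∩ Ioi x')) := by
      intro x hx x' hx' hR
      have hA : ∀ a ∈ N ∩ Ioi x, ∃ i, Iso (N ∩ Ioi x ∩ Iic a) (der 𝒞 i) := by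
        rintro a ⟨ha, hxa⟩
        rw [inter_assoc, Ioi_inter_Iic]
        exact hIoc x hx a ha hxa
      have hh : ∀ (K : Set ℚ), ∀ a ∈ N ∩ Ioi x,
          hullC (der 𝒞) K (N ∩ Ioi x ∩ Iic a) = hull K (N ∩ Ioi x ∩ Iic a) := by
        intro K a ha
        ext k
        constructor
        · rintro ⟨hk, k', hk', hkk', hI⟩
          exact ⟨hk, k', hk', hkk', hI.iso⟩
        · rintro ⟨hk, k', hk', hkk', hI⟩
          exact ⟨hk, k', hk', hkk', (isoC_iff_right (hA a ha)).2 hI⟩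
      have hbd : ∀ a ∈ N ∩ Ioi x, ∃ e ∈ N ∩ Ioi x,
          e ∉ hull (N ∩ Ioi x) (N ∩ Ioi x ∩ Iic a) := by
        rintro a ⟨ha, hxa⟩
        have : ¬ ∀ e ∈ N, ∃ c ∈ N, e ≤ c ∧ x < c ∧ Iso (N ∩ Ioc x c) (N ∩ Ioc x a) :=
          fun h => hR ⟨a, ha, hxa, h⟩
        push Not at this
        obtain ⟨e, he, h⟩ := this
        have hxe : x < e := by
          by_contra hc
          exact h a ha ((not_lt.1 hc).trans (le_of_lt hxa)) hxa (Iso.refl _)
        refine ⟨e, ⟨he, hxe⟩, ?_⟩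
        rintro ⟨_, c, ⟨hc, hxc⟩, hec, hI⟩
        refine h c hc hec hxc ?_
        rwa [inter_assoc, inter_assoc, Ioi_inter_Iic, Ioi_inter_Iic] at hI
      have hc : ∀ a ∈ N ∩ Ioi x, ∃ i, Iso (hull (N ∩ Ioi x) (N ∩ Ioi x ∩ Iic a)) (der 𝒞 i) := by
        intro a ha
        obtain ⟨e, he, hea⟩ := hbd a ha
        obtain ⟨i, hi⟩ := hT.2 x e hx he.1 he.2
        rw [← Ioi_inter_Iic, ← inter_assoc] at hi
        obtain ⟨R, hR⟩ := hi
        have hae : a ≤ e := by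
          by_contra hc
          exact hea ⟨he, a, ha, (not_le.1 hc).le, Iso.refl _⟩
        obtain ⟨c, hac⟩ := hR.dom a ⟨ha, hae⟩
        refine ⟨Sum.inr (Sum.inl (i, c)), ?_⟩
        rw [hull_eq_of_bound he ha hea]
        have h1 := hull_image hR (hR.iso_Iic hac)
        change Iso _ (hull (𝒞 i) (𝒞 i ∩ Iic c))
        rw [← h1]
        exact ⟨_, hR.image (isInit_hull _ _).1⟩
      have hd : ∀ a ∈ N ∩ Ioi x, ∀ b ∈ N ∩ Ioi x,
          b ∉ hull (N ∩ Ioi x) (N ∩ Ioi x ∩ Iic a) →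
          ∃ i, Iso (hull (N ∩ Ioi x) (N ∩ Ioi x ∩ Iic b) \
            hull (N ∩ Ioi x) (N ∩ Ioi x ∩ Iic a)) (der 𝒞 i) := by
        intro a ha b hb hba
        obtain ⟨e, he, heb⟩ := hbd b hb
        have hsub : hull (N ∩ Ioi x) (N ∩ Ioi x ∩ Iic a) ⊆
            hull (N ∩ Ioi x) (N ∩ Ioi x ∩ Iic b) := by
          rcases (isInit_hull (N ∩ Ioi x) (N ∩ Ioi x ∩ Iic a)).total
            (isInit_hull (N ∩ Ioi x) (N ∩ Ioi x ∩ Iic b)) with hs | hs
          · exact hs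
          · exact (hba (hs (mem_hull_self hb))).elim
        have hea : e ∉ hull (N ∩ Ioi x) (N ∩ Ioi x ∩ Iic a) := fun h => heb (hsub h)
        obtain ⟨i, hi⟩ := hT.2 x e hx he.1 he.2
        rw [← Ioi_inter_Iic, ← inter_assoc] at hi
        obtain ⟨R, hR⟩ := hi
        have hae : a ≤ e := by
          by_contra hc
          exact hea ⟨he, a, ha, (not_le.1 hc).le, Iso.refl _⟩
        have hbe : b ≤ e := by
          by_contra hc
          exact heb ⟨he, b, hb, (not_le.1 hc).le, Iso.refl _⟩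
        obtain ⟨c, hac⟩ := hR.dom a ⟨ha, hae⟩
        obtain ⟨d, hbd⟩ := hR.dom b ⟨hb, hbe⟩
        refine ⟨Sum.inr (Sum.inr (i, c, d)), ?_⟩
        rw [hull_eq_of_bound he ha hea, hull_eq_of_bound he hb heb]
        change Iso _ (hull (𝒞 i) (𝒞 i ∩ Iic d) \ hull (𝒞 i) (𝒞 i ∩ Iic c))
        rw [← hull_image hR (hR.iso_Iic hac), ← hull_image hR (hR.iso_Iic hbd)]
        have e : {y | ∃ x_1 ∈ hull (N ∩ Ioi x ∩ Iic e) (N ∩ Ioi x ∩ Iic e ∩ Iic b), R x_1 y} \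
            {y | ∃ x_1 ∈ hull (N ∩ Ioi x ∩ Iic e) (N ∩ Ioi x ∩ Iic e ∩ Iic a), R x_1 y} =
            {y | ∃ x_1 ∈ hull (N ∩ Ioi x ∩ Iic e) (N ∩ Ioi x ∩ Iic e ∩ Iic b) \
              hull (N ∩ Ioi x ∩ Iic e) (N ∩ Ioi x ∩ Iic e ∩ Iic a), R x_1 y} := by
          ext y
          constructor
          · rintro ⟨⟨w, hw, hwy⟩, h2⟩
            exact ⟨w, ⟨hw, fun hc => h2 ⟨w, hc, hwy⟩⟩, hwy⟩
          · rintro ⟨w, ⟨hw, hw2⟩, hwy⟩
            refine ⟨⟨w, hw, hwy⟩, ?_⟩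
            rintro ⟨w', hw', hwy'⟩
            have : w = w' := (hR.eq_iff hwy hwy').2 rfl
            exact hw2 (this ▸ hw')
        rw [e]
        exact ⟨_, hR.image fun w hw => (isInit_hull _ _).1 hw.1⟩
      unfold ForcedC Forced
      refine and_congr ?_ ?_
      · refine forall_congr' fun a => imp_congr_right fun ha => ?_
        rw [hh _ a ha, hh _ a ha]
        exact isoC_iff_left (hc a ha)
      · constructor
        · intro h a ha b hb hab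
          rw [← hh _ a ha] at hab
          have h1 := h a b ha hb hab
          rw [hh _ a ha, hh _ b hb, hh _ a ha, hh _ b hb] at h1
          exact ⟨fun k hk => h1.1 k hk, h1.2.iso⟩
        · intro h a b ha hb hab
          rw [hh _ a ha] at hab
          rw [hh _ a ha, hh _ b hb, hh _ a ha, hh _ b hb]
          have h1 := h a ha b hb hab
          exact ⟨fun k hk => h1.1 hk, (isoC_iff_left (hd a ha b hb hab)).2 h1.2⟩
    constructor
    · rintro (⟨h1, h2⟩ | ⟨x, hx, x', hx', h1, h2, h3⟩)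
      · refine Or.inr (Or.inr ⟨hne, hnl, Or.inl ⟨fun a ha => (hG a ha).2 (h1 a ha),
          fun c hc => ?_⟩⟩)
        obtain ⟨d, hd, h⟩ := h2 c hc
        exact ⟨d, hd, (isoC_iff_left (hIic c hc)).2 h⟩
      · exact Or.inr (Or.inr ⟨hne, hnl, Or.inr ⟨x, hx, x', hx',
          (isoC_iff_left (hIic x hx)).2 h1, fun h => h2 ((hRec x hx).1 h),
          (hfor x hx x' hx' h2).2 h3⟩⟩)
    · rintro (h | ⟨m', hm', hlast', d, hd, h⟩ | ⟨_, _, ⟨h1, h2⟩ | ⟨x, hx, x', hx', h1, h2, h3⟩⟩)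
      · obtain ⟨x, hx⟩ := hne
        exact (h x hx).elim
      · exact (hl ⟨m', hm', hlast'⟩).elim
      · refine Or.inl ⟨fun a ha => (hG a ha).1 (h1 a ha), fun c hc => ?_⟩
        obtain ⟨d, hd, h⟩ := h2 c hc
        exact ⟨d, hd, h.iso⟩
      · have h2' : ¬ Rec N x := fun h => h2 ((hRec x hx).2 h)
        exact Or.inr ⟨x, hx, x', hx', h1.iso, h2', (hfor x hx x' hx' h2').1 h3⟩

section measurability

variable {Z : Type*} [MeasurableSpace Z]

theorem meas_mem {s : Z → Set ℚ} (hs : Measurable s) (q : ℚ) : Measurable fun z => q ∈ s z :=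
  measurable_set_iff.1 hs q

theorem meas_inter {s : Z → Set ℚ} (hs : Measurable s) (t : Set ℚ) :
    Measurable fun z => s z ∩ t :=
  measurable_set_iff.2 fun q => (meas_mem hs q).and measurable_const

theorem meas_diff {s t : Z → Set ℚ} (hs : Measurable s) (ht : Measurable t) :
    Measurable fun z => s z \ t z :=
  measurable_set_iff.2 fun q => (meas_mem hs q).and (meas_mem ht q).not

theorem meas_iso {s : Z → Set ℚ} (hs : Measurable s) (C : Set ℚ) :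
    Measurable fun z => Iso (s z) C := (measurable_iso C).comp hs

variable [Countable ι] (𝒟 : ι → Set ℚ)

theorem meas_isoC {s t : Z → Set ℚ} (hs : Measurable s) (ht : Measurable t) :
    Measurable fun z => IsoC 𝒟 (s z) (t z) :=
  Measurable.exists fun _ => (meas_iso hs _).and (meas_iso ht _)

theorem meas_Tm {N : Z → Set ℚ} (hN : Measurable N) : Measurable fun z => Tm 𝒟 (N z) := by
  refine Measurable.and ?_ ?_
  · exact Measurable.forall fun x => (meas_mem hN x).imp (Measurable.exists fun _ =>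
      meas_iso (meas_inter hN _) _)
  · exact Measurable.forall fun x => Measurable.forall fun y => (meas_mem hN x).imp
      ((meas_mem hN y).imp (measurable_const.imp (Measurable.exists fun _ =>
      meas_iso (meas_inter hN _) _)))

theorem meas_GC {N : Z → Set ℚ} (hN : Measurable N) (a : ℚ) :
    Measurable fun z => GC 𝒟 (N z) a :=
  Measurable.exists fun b => (meas_mem hN b).and (measurable_const.and
    (Measurable.forall fun c => (meas_mem hN c).imp (measurable_const.imp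
    (Measurable.exists fun d => (meas_mem hN d).and (measurable_const.and (measurable_const.and
    (meas_isoC 𝒟 (meas_inter hN _) (meas_inter hN _))))))))

theorem meas_RecC {N : Z → Set ℚ} (hN : Measurable N) (a : ℚ) :
    Measurable fun z => RecC 𝒟 (N z) a :=
  Measurable.exists fun b => (meas_mem hN b).and (measurable_const.and
    (Measurable.forall fun e => (meas_mem hN e).imp
    (Measurable.exists fun c => (meas_mem hN c).and (measurable_const.and (measurable_const.and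
    (meas_isoC 𝒟 (meas_inter hN _) (meas_inter hN _)))))))

theorem meas_hullC {K U : Z → Set ℚ} (hK : Measurable K) (hU : Measurable U) :
    Measurable fun z => hullC 𝒟 (K z) (U z) :=
  measurable_set_iff.2 fun k => (meas_mem hK k).and (Measurable.exists fun k' =>
    (meas_mem hK k').and (measurable_const.and (meas_isoC 𝒟 (meas_inter hK _) hU)))

theorem meas_ForcedC {A K : Z → Set ℚ} (hA : Measurable A) (hK : Measurable K) :
    Measurable fun z => ForcedC 𝒟 (A z) (K z) := by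
  refine Measurable.and ?_ ?_
  · exact Measurable.forall fun a => (meas_mem hA a).imp
      (meas_isoC 𝒟 (meas_hullC 𝒟 hA (meas_inter hA _)) (meas_hullC 𝒟 hK (meas_inter hA _)))
  · refine Measurable.forall fun a => Measurable.forall fun b => (meas_mem hA a).imp
      ((meas_mem hA b).imp ((meas_mem (meas_hullC 𝒟 hA (meas_inter hA _)) b).not.imp
      (Measurable.and ?_ ?_)))
    · exact Measurable.forall fun k => (meas_mem (meas_hullC 𝒟 hK (meas_inter hA _)) k).imp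
        (meas_mem (meas_hullC 𝒟 hK (meas_inter hA _)) k)
    · exact meas_isoC 𝒟 (meas_diff (meas_hullC 𝒟 hA (meas_inter hA _))
        (meas_hullC 𝒟 hA (meas_inter hA _))) (meas_diff (meas_hullC 𝒟 hK (meas_inter hA _))
        (meas_hullC 𝒟 hK (meas_inter hA _)))

theorem meas_FC {N M : Z → Set ℚ} (hN : Measurable N) (hM : Measurable M) :
    Measurable fun z => FC 𝒟 (N z) (M z) := by
  refine Measurable.or (Measurable.forall fun x => (meas_mem hN x).not) (Measurable.or ?_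
    (Measurable.and (Measurable.exists fun x => meas_mem hN x) (Measurable.and ?_
    (Measurable.or (Measurable.and ?_ ?_) ?_))))
  · exact Measurable.exists fun m => (meas_mem hN m).and (Measurable.and (Measurable.forall
      fun x => (meas_mem hN x).imp measurable_const) (Measurable.exists fun d =>
      (meas_mem hM d).and (meas_isoC 𝒟 (meas_inter hN _) (meas_inter hM _))))
  · exact Measurable.forall fun x => (meas_mem hN x).imp (Measurable.exists fun y =>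
      (meas_mem hN y).and measurable_const)
  · exact Measurable.forall fun a => (meas_mem hN a).imp (meas_GC 𝒟 hN a)
  · exact Measurable.forall fun c => (meas_mem hN c).imp (Measurable.exists fun d =>
      (meas_mem hM d).and (meas_isoC 𝒟 (meas_inter hN _) (meas_inter hM _)))
  · exact Measurable.exists fun x => (meas_mem hN x).and (Measurable.exists fun x' =>
      (meas_mem hM x').and ((meas_isoC 𝒟 (meas_inter hN _) (meas_inter hM _)).and
      ((meas_RecC 𝒟 hN x).not.and (meas_ForcedC 𝒟 (meas_inter hN _) (meas_inter hM _)))))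

end measurability

/-- The family of pieces of a fixed order. -/
def pieces (I : Set ℚ) : ℚ ⊕ (ℚ × ℚ) → Set ℚ
  | Sum.inl x => I ∩ Iic x
  | Sum.inr (x, y) => I ∩ Ioc x y

theorem tm_pieces {N I : Set ℚ} (h : Ini N I) : Tm (pieces I) N := by
  obtain ⟨u, hu, R, hR⟩ := h
  have hIic : ∀ y ∈ u, u ∩ Iic y = I ∩ Iic y := by
    intro y hy
    ext w
    constructor
    · rintro ⟨h1, h2⟩; exact ⟨hu.1 h1, h2⟩
    · rintro ⟨h1, h2⟩; exact ⟨hu.2 y hy w h1 h2, h2⟩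
  refine ⟨fun x hx => ?_, fun x x' hx hx' _ => ?_⟩
  · obtain ⟨y, hy⟩ := hR.dom x hx
    refine ⟨Sum.inl y, ?_⟩
    have := hR.iso_Iic hy
    rwa [hIic y (hR.right hy)] at this
  · obtain ⟨y, hy⟩ := hR.dom x hx
    obtain ⟨y', hy'⟩ := hR.dom x' hx'
    refine ⟨Sum.inr (y, y'), ?_⟩
    have := hR.iso_Ioc hy hy'
    rwa [← Ioi_inter_Iic, ← Ioi_inter_Iic, inter_comm (Ioi y), ← inter_assoc u,
      hIic y' (hR.right hy'), inter_assoc I, inter_comm (Iic y')] at this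

/-- `Ini` is Borel when either the target is fixed, or the source is an initial segment of a fixed
order. -/
theorem meas_ini {Z : Type*} [MeasurableSpace Z] {N M : Z → Set ℚ} (hN : Measurable N)
    (hM : Measurable M) (I : Set ℚ) (h : ∀ z, Ini (N z) (M z) → Ini (N z) I) :
    Measurable fun z => Ini (N z) (M z) := by
  have e : (fun z => Ini (N z) (M z)) =
      fun z => Tm (pieces I) (N z) ∧ FC (der (pieces I)) (N z) (M z) := by
    funext z
    refine propext ⟨fun k => ?_, fun k => ?_⟩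
    · have hT := tm_pieces (h z k)
      exact ⟨hT, (ini_iff_FC hT).1 k⟩
    · exact (ini_iff_FC k.1).2 k.2
  rw [e]
  exact (meas_Tm _ hN).and (meas_FC _ hN hM)

end Pool.Agent.Lib.MP_9f2d77_lc
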