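import Mathlib

/-! An analytic subset of Baire space which is not Borel. -/

namespace Pool.Agent.Lib.MP_9f2d77_lc

open Set MeasureTheory TopologicalSpace

theorem exists_analytic_not_borel :
    ∃ A : Set (ℕ → ℕ), AnalyticSet A ∧ ¬ MeasurableSet A := by
  classical
  -- a countable basis with the empty set added
  obtain ⟨b, hbo, hb⟩ : ∃ b : ℕ → Set ((ℕ → ℕ) × (ℕ → ℕ)), (∀ n, IsOpen (b n)) ∧
      ∀ O : Set ((ℕ → ℕ) × (ℕ → ℕ)), IsOpen O → ∃ x : ℕ → ℕ, O = ⋃ n, b (x n) := by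
    obtain ⟨B, hBc, _, hB⟩ := exists_countable_basis ((ℕ → ℕ) × (ℕ → ℕ))
    have hc : (insert ∅ B).Countable := hBc.insert _
    obtain ⟨b, hb⟩ := hc.exists_eq_range ⟨∅, mem_insert _ _⟩
    have hbo : ∀ n, IsOpen (b n) := by
      intro n
      have : b n ∈ insert ∅ B := hb ▸ mem_range_self n
      rcases this with h | h
      · rw [h]; exact isOpen_empty
      · exact hB.isOpen h
    obtain ⟨n0, hn0⟩ : ∃ n0, b n0 = ∅ := by
      have : (∅ : Set ((ℕ → ℕ) × (ℕ → ℕ))) ∈ range b := hb ▸ mem_insert _ _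
      exact this
    refine ⟨b, hbo, fun O hO => ⟨fun n => if b n ⊆ O then n else n0, ?_⟩⟩
    apply subset_antisymm
    · intro p hp
      obtain ⟨v, hv, hpv, hvO⟩ := hB.exists_subset_of_mem_open hp hO
      have : v ∈ range b := hb ▸ mem_insert_of_mem _ hv
      obtain ⟨n, rfl⟩ := this
      refine mem_iUnion.2 ⟨n, ?_⟩
      change p ∈ b (if b n ⊆ O then n else n0)
      rw [if_pos hvO]
      exact hpv
    · refine iUnion_subset fun n => ?_
      change b (if b n ⊆ O then n else n0) ⊆ O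
      by_cases h : b n ⊆ O
      · rw [if_pos h]; exact h
      · rw [if_neg h, hn0]; exact empty_subset _
  let W : Set ((ℕ → ℕ) × (ℕ → ℕ)) := {p | ∀ n, p ∉ b (p.1 n)}
  have hW : IsClosed W := by
    have : W = ⋂ n, ⋂ k, {p : (ℕ → ℕ) × (ℕ → ℕ) | p.1 n = k → p ∉ b k} := by
      ext p
      simp only [mem_iInter]
      constructor
      · intro h n k hk
        rw [← hk]
        exact h n
      · intro h n
        exact h n (p.1 n) rfl
    rw [this]
    refine isClosed_iInter fun n => isClosed_iInter fun k => ?_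
    have h1 : IsOpen {p : (ℕ → ℕ) × (ℕ → ℕ) | p.1 n = k ∧ p ∈ b k} := by
      have h2 : IsOpen {p : (ℕ → ℕ) × (ℕ → ℕ) | p.1 n = k} :=
        (isOpen_discrete ({k} : Set ℕ)).preimage ((continuous_apply (A := fun _ : ℕ => ℕ) n).comp
          (continuous_fst (X := ℕ → ℕ) (Y := ℕ → ℕ)))
      exact h2.inter (hbo k)
    have h3 : {p : (ℕ → ℕ) × (ℕ → ℕ) | p.1 n = k → p ∉ b k} =
        {p : (ℕ → ℕ) × (ℕ → ℕ) | p.1 n = k ∧ p ∈ b k}ᶜ := by
      ext p
      simp only [mem_compl_iff, mem_ofPred_eq, not_and]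
    rw [h3]
    exact h1.isClosed_compl
  refine ⟨Prod.fst '' W, hW.analyticSet.image_of_continuous continuous_fst, fun hm => ?_⟩
  have hc : AnalyticSet (Prod.fst '' W)ᶜ := hm.compl.analyticSet
  have hC : ∃ C : Set ((ℕ → ℕ) × (ℕ → ℕ)), IsClosed C ∧
      ∀ y, y ∈ (Prod.fst '' W)ᶜ ↔ ∃ z, (y, z) ∈ C := by
    rw [AnalyticSet] at hc
    rcases hc with h | ⟨f, hf, h⟩
    · refine ⟨∅, isClosed_empty, fun y => ?_⟩
      rw [h]
      simp
    · refine ⟨{p | f p.2 = p.1}, isClosed_eq (hf.comp continuous_snd) continuous_fst,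
        fun y => ?_⟩
      rw [← h]
      rfl
  obtain ⟨C, hCc, hC⟩ := hC
  obtain ⟨x, hx⟩ := hb Cᶜ hCc.isOpen_compl
  have key : ∀ z, (x, z) ∈ W ↔ (x, z) ∈ C := by
    intro z
    have h1 : (x, z) ∈ C ↔ ¬ (x, z) ∈ ⋃ n, b (x n) := by
      rw [← hx, mem_compl_iff, not_not]
    rw [h1, mem_iUnion, not_exists]
    rfl
  have h1 := hC x
  have h2 : x ∈ Prod.fst '' W ↔ ∃ z, (x, z) ∈ C := by
    constructor
    · rintro ⟨⟨a, z⟩, h, rfl⟩
      exact ⟨z, (key z).1 h⟩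
    · rintro ⟨z, h⟩
      exact ⟨(x, z), (key z).2 h, rfl⟩
  rw [mem_compl_iff, h2] at h1
  by_cases h3 : ∃ z, (x, z) ∈ C
  · exact h1.2 h3 h3
  · exact h3 (h1.1 h3)

/-- An analytic equivalence relation on Baire space with a class which is not Borel. -/
theorem exists_analytic_equiv :
    ∃ (F : (ℕ → ℕ) → (ℕ → ℕ) → Prop) (a : ℕ → ℕ), Equivalence F ∧
      AnalyticSet {p : (ℕ → ℕ) × (ℕ → ℕ) | F p.1 p.2} ∧ ¬ MeasurableSet {x | F a x} := by
  obtain ⟨A, hA, hA'⟩ := exists_analytic_not_borel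
  obtain ⟨a, ha⟩ : A.Nonempty := by
    rw [nonempty_iff_ne_empty]
    rintro rfl
    exact hA' MeasurableSet.empty
  refine ⟨fun x y => x = y ∨ (x ∈ A ∧ y ∈ A), a, ⟨fun x => Or.inl rfl, ?_, ?_⟩, ?_, ?_⟩
  · rintro x y (rfl | ⟨h1, h2⟩)
    · exact Or.inl rfl
    · exact Or.inr ⟨h2, h1⟩
  · rintro x y z (rfl | ⟨h1, h2⟩) (rfl | ⟨h3, h4⟩)
    · exact Or.inl rfl
    · exact Or.inr ⟨h3, h4⟩
    · exact Or.inr ⟨h1, h2⟩
    · exact Or.inr ⟨h1, h4⟩
  · have h1 : AnalyticSet {p : (ℕ → ℕ) × (ℕ → ℕ) | p.1 = p.2} :=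
      (isClosed_eq continuous_fst continuous_snd).analyticSet
    have h2 : AnalyticSet (⋂ i : Bool, (if i then (Prod.fst ⁻¹' A) else (Prod.snd ⁻¹' A) :
        Set ((ℕ → ℕ) × (ℕ → ℕ)))) := by
      refine AnalyticSet.iInter fun i => ?_
      cases i
      · exact hA.preimage continuous_snd
      · exact hA.preimage continuous_fst
    have h3 : AnalyticSet (⋃ j : Bool, (if j then {p : (ℕ → ℕ) × (ℕ → ℕ) | p.1 = p.2} else
        (⋂ i : Bool, (if i then (Prod.fst ⁻¹' A) else (Prod.snd ⁻¹' A) :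
        Set ((ℕ → ℕ) × (ℕ → ℕ)))))) := by
      refine AnalyticSet.iUnion fun j => ?_
      cases j
      · exact h2
      · exact h1
    have e : {p : (ℕ → ℕ) × (ℕ → ℕ) | p.1 = p.2 ∨ (p.1 ∈ A ∧ p.2 ∈ A)} =
        (⋃ j : Bool, (if j then {p : (ℕ → ℕ) × (ℕ → ℕ) | p.1 = p.2} else
        (⋂ i : Bool, (if i then (Prod.fst ⁻¹' A) else (Prod.snd ⁻¹' A) :
        Set ((ℕ → ℕ) × (ℕ → ℕ)))))) := by
      ext p
      simp only [mem_iUnion, Bool.exists_bool, Bool.false_eq_true, if_false, if_true,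
        mem_ofPred_eq]
      rw [mem_iInter, Bool.forall_bool]
      simp only [Bool.false_eq_true, if_false, if_true, mem_preimage]
      tauto
    rw [e]
    exact h3
  · intro hm
    apply hA'
    have e : {x | a = x ∨ (a ∈ A ∧ x ∈ A)} = A := by
      ext x
      constructor
      · rintro (rfl | ⟨_, h⟩)
        exacts [ha, h]
      · intro h
        exact Or.inr ⟨ha, h⟩
    rwa [e] at hm

end Pool.Agent.Lib.MP_9f2d77_lc
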