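import Pool.Agent.Lib.MP_9f2d77_lc.Two

/-! Finite piecewise convex embeddings. -/

namespace Pool.Agent.Lib.MP_9f2d77_lc

open Set

variable {α β γ : Type*} [LinearOrder α] [LinearOrder β] [LinearOrder γ]

/-- `R x y i` says that `x` is sent to `y` and lies in the `i`-th piece. -/
structure PWRel (N : Set α) (M : Set β) (B : ℕ) (R : α → β → ℕ → Prop) : Prop where
  dom : ∀ x ∈ N, ∃ y i, R x y i
  left : ∀ {x y i}, R x y i → x ∈ N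
  right : ∀ {x y i}, R x y i → y ∈ M
  lt_iff : ∀ {x y i x' y' i'}, R x y i → R x' y' i' → (x < x' ↔ y < y')
  mono : ∀ {x y i x' y' i'}, R x y i → R x' y' i' → x ≤ x' → i ≤ i'
  bound : ∀ {x y i}, R x y i → i ≤ B
  conv : ∀ {x y x' y' i}, R x y i → R x' y' i → ∀ z ∈ M, y ≤ z → z ≤ y' → ∃ w, R w z i

/-- `N` embeds in `M` piecewise convexly, with finitely many pieces. -/
def PW (N : Set α) (M : Set β) : Prop := ∃ B R, PWRel N M B R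

namespace PWRel

variable {N : Set α} {M : Set β} {B : ℕ} {R : α → β → ℕ → Prop}

theorem le_iff (h : PWRel N M B R) {x y i x' y' i'} (h1 : R x y i) (h2 : R x' y' i') :
    x ≤ x' ↔ y ≤ y' := by
  rw [← not_lt, ← not_lt, h.lt_iff h2 h1]

theorem eq_iff (h : PWRel N M B R) {x y i x' y' i'} (h1 : R x y i) (h2 : R x' y' i') :
    x = x' ↔ y = y' := by
  rw [le_antisymm_iff, le_antisymm_iff, h.le_iff h1 h2, h.le_iff h2 h1]

theorem index_eq (h : PWRel N M B R) {x y i y' i'} (h1 : R x y i) (h2 : R x y' i') : i = i' :=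
  le_antisymm (h.mono h1 h2 le_rfl) (h.mono h2 h1 le_rfl)

end PWRel

/-- Transport along isomorphisms. -/
theorem PW.congr {δ : Type*} [LinearOrder δ] {N : Set α} {M : Set β} {N' : Set γ} {M' : Set δ}
    (hN : Iso N N') (hM : Iso M M') (h : PW N M) : PW N' M' := by
  obtain ⟨S, hS⟩ := hN
  obtain ⟨T, hT⟩ := hM
  obtain ⟨B, R, hR⟩ := h
  refine ⟨B, fun x' y' i => ∃ x y, S x x' ∧ T y y' ∧ R x y i, ⟨?_, ?_, ?_, ?_, ?_, ?_, ?_⟩⟩
  · intro x' hx'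
    obtain ⟨x, hx⟩ := hS.ran x' hx'
    obtain ⟨y, i, hy⟩ := hR.dom x (hS.left hx)
    obtain ⟨y', hy'⟩ := hT.dom y (hR.right hy)
    exact ⟨y', i, x, y, hx, hy', hy⟩
  · rintro x' y' i ⟨x, y, hx, hy, hi⟩
    exact hS.right hx
  · rintro x' y' i ⟨x, y, hx, hy, hi⟩
    exact hT.right hy
  · rintro a' b' i c' d' j ⟨a, b, ha, hb, hi⟩ ⟨c, d, hc, hd, hj⟩
    rw [← hS.lt_iff ha hc, hR.lt_iff hi hj, hT.lt_iff hb hd]
  · rintro a' b' i c' d' j ⟨a, b, ha, hb, hi⟩ ⟨c, d, hc, hd, hj⟩ hle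
    exact hR.mono hi hj ((hS.le_iff ha hc).2 hle)
  · rintro x' y' i ⟨x, y, hx, hy, hi⟩
    exact hR.bound hi
  · rintro a' b' c' d' i ⟨a, b, ha, hb, hi⟩ ⟨c, d, hc, hd, hj⟩ z' hz' h1 h2
    obtain ⟨z, hz⟩ := hT.ran z' hz'
    obtain ⟨w, hw⟩ := hR.conv hi hj z (hT.left hz) ((hT.le_iff hb hz).2 h1)
      ((hT.le_iff hz hd).2 h2)
    obtain ⟨w', hw'⟩ := hS.dom w (hR.left hw)
    exact ⟨w', w, z, hw', hz, hw⟩

/-- Transitivity. -/
theorem PW.trans {N : Set α} {M : Set β} {K : Set γ} (h : PW N M) (k : PW M K) : PW N K := by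
  obtain ⟨B, R, hR⟩ := h
  obtain ⟨C, S, hS⟩ := k
  refine ⟨B * (C + 1) + C, fun x z l => ∃ y i j, R x y i ∧ S y z j ∧ l = i * (C + 1) + j,
    ⟨?_, ?_, ?_, ?_, ?_, ?_, ?_⟩⟩
  · intro x hx
    obtain ⟨y, i, hy⟩ := hR.dom x hx
    obtain ⟨z, j, hz⟩ := hS.dom y (hR.right hy)
    exact ⟨z, _, y, i, j, hy, hz, rfl⟩
  · rintro x z l ⟨y, i, j, h1, h2, _⟩
    exact hR.left h1
  · rintro x z l ⟨y, i, j, h1, h2, _⟩
    exact hS.right h2
  · rintro x z l x' z' l' ⟨y, i, j, h1, h2, _⟩ ⟨y', i', j', h1', h2', _⟩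
    rw [hR.lt_iff h1 h1', hS.lt_iff h2 h2']
  · rintro x z l x' z' l' ⟨y, i, j, h1, h2, rfl⟩ ⟨y', i', j', h1', h2', rfl⟩ hle
    exact Nat.add_le_add (Nat.mul_le_mul_right _ (hR.mono h1 h1' hle))
      (hS.mono h2 h2' ((hR.le_iff h1 h1').1 hle))
  · rintro x z l ⟨y, i, j, h1, h2, rfl⟩
    exact Nat.add_le_add (Nat.mul_le_mul_right _ (hR.bound h1)) (hS.bound h2)
  · rintro x z x' z' l ⟨y, i, j, h1, h2, rfl⟩ ⟨y', i', j', h1', h2', he⟩ v hv hzv hvz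
    have hj := hS.bound h2
    have hj' := hS.bound h2'
    have hii : i = i' := by
      have h3 : (i * (C + 1) + j) / (C + 1) = i := by
        rw [Nat.mul_comm, Nat.mul_add_div (Nat.succ_pos C), Nat.div_eq_of_lt (by omega)]; rfl
      have h4 : (i' * (C + 1) + j') / (C + 1) = i' := by
        rw [Nat.mul_comm, Nat.mul_add_div (Nat.succ_pos C), Nat.div_eq_of_lt (by omega)]; rfl
      rw [← h3, ← h4, he]
    subst hii
    have hjj : j = j' := by omega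
    subst hjj
    obtain ⟨y0, hy0⟩ := hS.conv h2 h2' v hv hzv hvz
    obtain ⟨x0, hx0⟩ := hR.conv h1 h1' y0 (hS.left hy0) ((hS.le_iff h2 hy0).2 hzv)
      ((hS.le_iff hy0 h2').2 hvz)
    exact ⟨x0, y0, i, j, hx0, hy0, rfl⟩

theorem tt_of_pw {N M : Set ℚ} {B : ℕ} {R : ℚ → ℚ → ℕ → Prop} (hR : PWRel N M B R) (d : ℕ) :
    ∀ n m i, R n m i → B ≤ i + d → ∃ k, TT k N M n m := by
  induction d with
  | zero =>
    intro n m i hi hB
    have hBi : i = B := le_antisymm (hR.bound hi) (by simpa using hB)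
    refine ⟨0, {y | ∃ x ∈ N ∩ Ioi n, ∃ j, R x y j}, ⟨?_, ?_⟩,
      fun x y => (∃ j, R x y j) ∧ x ∈ N ∩ Ioi n, ⟨?_, ?_, ?_, ?_, ?_⟩⟩
    · rintro y ⟨x, hx, j, hj⟩
      exact ⟨hR.right hj, (hR.lt_iff hi hj).1 hx.2⟩
    · rintro y ⟨x, hx, j, hj⟩ z hz hzy
      have hji : j = i := le_antisymm (hBi ▸ hR.bound hj) (hR.mono hi hj (le_of_lt hx.2))
      subst hji
      obtain ⟨w, hw⟩ := hR.conv hi hj z hz.1 (le_of_lt hz.2) hzy
      exact ⟨w, ⟨hR.left hw, (hR.lt_iff hi hw).2 hz.2⟩, j, hw⟩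
    · intro x hx
      obtain ⟨y, j, hj⟩ := hR.dom x hx.1
      exact ⟨y, ⟨j, hj⟩, hx⟩
    · rintro y ⟨x, hx, j, hj⟩
      exact ⟨x, ⟨j, hj⟩, hx⟩
    · exact fun h => h.2
    · exact fun h => ⟨_, h.2, h.1⟩
    · rintro x y x' y' ⟨⟨j, hj⟩, _⟩ ⟨⟨j', hj'⟩, _⟩
      exact hR.lt_iff hj hj'
  | succ d ih =>
    intro n m i hi hB
    by_cases hex : ∃ j, j ≠ i ∧ ∃ x y, n < x ∧ R x y j
    · classical
      obtain ⟨hji, n', m', hnn', hj⟩ := Nat.find_spec hex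
      have hmin : ∀ j, j ≠ i → ∀ x y, n < x → R x y j → Nat.find hex ≤ j :=
        fun j h1 x y h2 h3 => Nat.find_min' hex ⟨h1, x, y, h2, h3⟩
      generalize Nat.find hex = j at hji hj hmin
      have hij : i < j := lt_of_le_of_ne (hR.mono hi hj hnn'.le) (Ne.symm hji)
      obtain ⟨k, hk⟩ := ih n' m' j hj (by omega)
      have hmm' : m < m' := (hR.lt_iff hi hj).1 hnn'
      refine ⟨k + 1, n', hR.left hj, m', hR.right hj, hnn', hmm', ?_, hk⟩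
      -- the index of a point strictly between is `i` or `j`
      have hidx : ∀ x y l, R x y l → n < x → x < n' → l = i ∨ l = j := by
        intro x y l hl h1 h2
        by_cases hli : l = i
        · exact Or.inl hli
        · exact Or.inr (le_antisymm (hR.mono hl hj h2.le) (hmin l hli x y h1 hl))
      refine ⟨{x | x ∈ N ∩ Ioo n n' ∧ ∃ y, R x y i}, {y | ∃ x, x ∈ N ∩ Ioo n n' ∧ R x y i},
        {y | ∃ x, x ∈ N ∩ Ioo n n' ∧ R x y j}, ⟨fun x hx => hx.1, ?_⟩, ⟨?_, ?_⟩, ⟨?_, ?_⟩, ?_, ?_,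
        ?_⟩
      · rintro x ⟨hx, y, hy⟩ x' hx' hxx
        obtain ⟨y', l, hl⟩ := hR.dom x' hx'.1
        have : l = i := le_antisymm (hR.mono hl hy hxx) (hR.mono hi hl hx'.2.1.le)
        exact ⟨hx', y', this ▸ hl⟩
      · rintro y ⟨x, hx, hxy⟩
        exact ⟨hR.right hxy, (hR.lt_iff hi hxy).1 hx.2.1, (hR.lt_iff hxy hj).1 hx.2.2⟩
      · rintro y ⟨x, hx, hxy⟩ z hz hzy
        obtain ⟨w, hw⟩ := hR.conv hi hxy z hz.1 hz.2.1.le hzy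
        exact ⟨w, ⟨hR.left hw, (hR.lt_iff hi hw).2 hz.2.1, (hR.lt_iff hw hj).2 hz.2.2⟩, hw⟩
      · rintro y ⟨x, hx, hxy⟩
        exact ⟨hR.right hxy, (hR.lt_iff hi hxy).1 hx.2.1, (hR.lt_iff hxy hj).1 hx.2.2⟩
      · rintro y ⟨x, hx, hxy⟩ z hz hyz
        obtain ⟨w, hw⟩ := hR.conv hxy hj z hz.1 hyz hz.2.2.le
        exact ⟨w, ⟨hR.left hw, (hR.lt_iff hi hw).2 hz.2.1, (hR.lt_iff hw hj).2 hz.2.2⟩, hw⟩
      · rintro y ⟨x, hx, hxy⟩ y' ⟨x', hx', hxy'⟩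
        rw [← hR.lt_iff hxy hxy']
        by_contra hc
        have := hR.mono hxy' hxy (not_lt.1 hc)
        omega
      · refine ⟨fun x y => x ∈ N ∩ Ioo n n' ∧ R x y i, ⟨?_, ?_, ?_, ?_, ?_⟩⟩
        · rintro x ⟨hx, y, hy⟩
          exact ⟨y, hx, hy⟩
        · rintro y ⟨x, hx, hy⟩
          exact ⟨x, hx, hy⟩
        · rintro x y ⟨hx, hy⟩
          exact ⟨hx, y, hy⟩
        · rintro x y ⟨hx, hy⟩
          exact ⟨x, hx, hy⟩
        · rintro x y x' y' ⟨_, h1⟩ ⟨_, h2⟩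
          exact hR.lt_iff h1 h2
      · refine ⟨fun x y => x ∈ N ∩ Ioo n n' ∧ R x y j, ⟨?_, ?_, ?_, ?_, ?_⟩⟩
        · rintro x ⟨hx, hxP⟩
          obtain ⟨y, l, hl⟩ := hR.dom x hx.1
          rcases hidx x y l hl hx.2.1 hx.2.2 with rfl | rfl
          · exact (hxP ⟨hx, y, hl⟩).elim
          · exact ⟨y, hx, hl⟩
        · rintro y ⟨x, hx, hy⟩
          exact ⟨x, hx, hy⟩
        · rintro x y ⟨hx, hy⟩
          refine ⟨hx, ?_⟩
          rintro ⟨_, y', hy'⟩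
          exact hji (hR.index_eq hy hy')
        · rintro x y ⟨hx, hy⟩
          exact ⟨x, hx, hy⟩
        · rintro x y x' y' ⟨_, h1⟩ ⟨_, h2⟩
          exact hR.lt_iff h1 h2
    · push Not at hex
      refine ⟨0, {y | ∃ x ∈ N ∩ Ioi n, ∃ j, R x y j}, ⟨?_, ?_⟩,
        fun x y => (∃ j, R x y j) ∧ x ∈ N ∩ Ioi n, ⟨?_, ?_, ?_, ?_, ?_⟩⟩
      · rintro y ⟨x, hx, j, hj⟩
        exact ⟨hR.right hj, (hR.lt_iff hi hj).1 hx.2⟩
      · rintro y ⟨x, hx, j, hj⟩ z hz hzy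
        have hji : j = i := by
          by_contra hc
          exact hex j hc x y hx.2 hj
        subst hji
        obtain ⟨w, hw⟩ := hR.conv hi hj z hz.1 (le_of_lt hz.2) hzy
        exact ⟨w, ⟨hR.left hw, (hR.lt_iff hi hw).2 hz.2⟩, j, hw⟩
      · intro x hx
        obtain ⟨y, j, hj⟩ := hR.dom x hx.1
        exact ⟨y, ⟨j, hj⟩, hx⟩
      · rintro y ⟨x, hx, j, hj⟩
        exact ⟨x, ⟨j, hj⟩, hx⟩
      · exact fun h => h.2
      · exact fun h => ⟨_, h.2, h.1⟩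
      · rintro x y x' y' ⟨⟨j, hj⟩, _⟩ ⟨⟨j', hj'⟩, _⟩
        exact hR.lt_iff hj hj'

theorem pe_of_pw {N M : Set ℚ} (hne : N.Nonempty) (h : PW N M) : PE N M := by
  classical
  obtain ⟨B, R, hR⟩ := h
  have hex : ∃ i, ∃ x y, R x y i := by
    obtain ⟨x, hx⟩ := hne
    obtain ⟨y, i, hi⟩ := hR.dom x hx
    exact ⟨i, x, y, hi⟩
  obtain ⟨n, m, hi⟩ := Nat.find_spec hex
  have hmin : ∀ j x y, R x y j → Nat.find hex ≤ j := fun j x y h => Nat.find_min' hex ⟨x, y, h⟩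
  generalize Nat.find hex = i at hi hmin
  refine ⟨n, hR.left hi, m, hR.right hi, ⟨{y | ∃ x ∈ N ∩ Iio n, R x y i}, ⟨?_, ?_⟩,
    fun x y => R x y i ∧ x ∈ N ∩ Iio n, ⟨?_, ?_, ?_, ?_, ?_⟩⟩,
    tt_of_pw hR B n m i hi (by omega)⟩
  · rintro y ⟨x, hx, hj⟩
    exact ⟨hR.right hj, (hR.lt_iff hj hi).1 hx.2⟩
  · rintro y ⟨x, hx, hj⟩ z hz hyz
    obtain ⟨w, hw⟩ := hR.conv hj hi z hz.1 hyz (le_of_lt hz.2)
    exact ⟨w, ⟨hR.left hw, (hR.lt_iff hw hi).2 hz.2⟩, hw⟩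
  · intro x hx
    obtain ⟨y, j, hj⟩ := hR.dom x hx.1
    have : j = i := le_antisymm (hR.mono hj hi (le_of_lt hx.2)) (hmin j x y hj)
    exact ⟨y, this ▸ hj, hx⟩
  · rintro y ⟨x, hx, hj⟩
    exact ⟨x, hj, hx⟩
  · exact fun h => h.2
  · exact fun h => ⟨_, h.2, h.1⟩
  · rintro x y x' y' ⟨hj, _⟩ ⟨hj', _⟩
    exact hR.lt_iff hj hj'

theorem pw_of_tt {N M : Set ℚ} (k : ℕ) : ∀ n m, n ∈ N → m ∈ M → TT k N M n m →
    ∃ B R, PWRel (N ∩ Ici n) (M ∩ Ici m) B R ∧ R n m 0 := by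
  induction k with
  | zero =>
    rintro n m hn hm ⟨u, hu, S, hS⟩
    refine ⟨0, fun x y i => i = 0 ∧ ((x = n ∧ y = m) ∨ S x y), ⟨?_, ?_, ?_, ?_, ?_, ?_, ?_⟩,
      rfl, Or.inl ⟨rfl, rfl⟩⟩
    · rintro x ⟨hx, hnx⟩
      rcases eq_or_lt_of_le (mem_Ici.1 hnx) with rfl | hlt
      · exact ⟨m, 0, rfl, Or.inl ⟨rfl, rfl⟩⟩
      · obtain ⟨y, hy⟩ := hS.dom x ⟨hx, hlt⟩
        exact ⟨y, 0, rfl, Or.inr hy⟩
    · rintro x y i ⟨_, ⟨rfl, rfl⟩ | h⟩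
      · exact ⟨hn, mem_Ici.2 le_rfl⟩
      · exact ⟨(hS.left h).1, mem_Ici.2 (le_of_lt (mem_Ioi.1 (hS.left h).2))⟩
    · rintro x y i ⟨_, ⟨rfl, rfl⟩ | h⟩
      · exact ⟨hm, mem_Ici.2 le_rfl⟩
      · exact ⟨(hu.1 (hS.right h)).1, mem_Ici.2 (le_of_lt (mem_Ioi.1 (hu.1 (hS.right h)).2))⟩
    · rintro x y i x' y' i' ⟨_, ⟨rfl, rfl⟩ | h⟩ ⟨_, ⟨rfl, rfl⟩ | h'⟩
      · simp
      · exact iff_of_true (hS.left h').2 (hu.1 (hS.right h')).2
      · exact iff_of_false (hS.left h).2.not_gt (hu.1 (hS.right h)).2.not_gt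
      · exact hS.lt_iff h h'
    · rintro x y i x' y' i' ⟨rfl, _⟩ ⟨rfl, _⟩ _
      exact le_rfl
    · rintro x y i ⟨rfl, _⟩
      exact le_rfl
    · rintro x y x' y' i ⟨rfl, h1⟩ ⟨_, h2⟩ z hz h3 h4
      rcases eq_or_lt_of_le (mem_Ici.1 hz.2) with rfl | hlt
      · exact ⟨n, rfl, Or.inl ⟨rfl, rfl⟩⟩
      · rcases h2 with ⟨rfl, rfl⟩ | h2
        · exact (h4.not_gt hlt).elim
        · obtain ⟨w, hw⟩ := hS.ran z (hu.2 y' (hS.right h2) z ⟨hz.1, hlt⟩ h4)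
          exact ⟨w, rfl, Or.inr hw⟩
  | succ k ih =>
    rintro n m hn hm ⟨n', hn', m', hm', hnn', hmm', ⟨P, P', Q', hP, hP', hQ', hlt,
      ⟨S, hS⟩, ⟨T, hT⟩⟩, hk⟩
    obtain ⟨B, R, hR, hR0⟩ := ih n' m' hn' hm' hk
    -- positions
    have pS : ∀ {x y}, S x y → (x ∈ N ∧ n < x ∧ x < n') ∧ (y ∈ M ∧ m < y ∧ y < m') :=
      fun h => ⟨hP.1 (hS.left h), hP'.1 (hS.right h)⟩
    have pT : ∀ {x y}, T x y → (x ∈ N ∧ n < x ∧ x < n') ∧ (y ∈ M ∧ m < y ∧ y < m') :=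
      fun h => ⟨(hT.left h).1, hQ'.1 (hT.right h)⟩
    have pR : ∀ {x y i}, R x y i → (x ∈ N ∧ n' ≤ x) ∧ (y ∈ M ∧ m' ≤ y) :=
      fun h => ⟨hR.left h, hR.right h⟩
    have pST : ∀ {x y x' y'}, S x y → T x' y' → x < x' ∧ y < y' := by
      intro x y x' y' h h'
      refine ⟨?_, hlt _ (hS.right h) _ (hT.right h')⟩
      by_contra hc
      exact (hT.left h').2 (hP.2 x (hS.left h) x' (hT.left h').1 (not_lt.1 hc))
    refine ⟨B + 1, fun x y i => (i = 0 ∧ ((x = n ∧ y = m) ∨ S x y)) ∨ (i = 1 ∧ T x y) ∨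
      ∃ j, i = j + 1 ∧ R x y j, ⟨?_, ?_, ?_, ?_, ?_, ?_, ?_⟩, Or.inl ⟨rfl, Or.inl ⟨rfl, rfl⟩⟩⟩
    · rintro x ⟨hx, hnx⟩
      rcases eq_or_lt_of_le (mem_Ici.1 hnx) with rfl | hlt'
      · exact ⟨m, 0, Or.inl ⟨rfl, Or.inl ⟨rfl, rfl⟩⟩⟩
      · rcases lt_or_ge x n' with hxn | hxn
        · by_cases hxP : x ∈ P
          · obtain ⟨y, hy⟩ := hS.dom x hxP
            exact ⟨y, 0, Or.inl ⟨rfl, Or.inr hy⟩⟩
          · obtain ⟨y, hy⟩ := hT.dom x ⟨⟨hx, hlt', hxn⟩, hxP⟩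
            exact ⟨y, 1, Or.inr (Or.inl ⟨rfl, hy⟩)⟩
        · obtain ⟨y, j, hj⟩ := hR.dom x ⟨hx, hxn⟩
          exact ⟨y, j + 1, Or.inr (Or.inr ⟨j, rfl, hj⟩)⟩
    · rintro x y i (⟨_, ⟨rfl, rfl⟩ | h⟩ | ⟨_, h⟩ | ⟨j, _, h⟩)
      · exact ⟨hn, mem_Ici.2 le_rfl⟩
      · exact ⟨(pS h).1.1, (pS h).1.2.1.le⟩
      · exact ⟨(pT h).1.1, (pT h).1.2.1.le⟩
      · exact ⟨(pR h).1.1, hnn'.le.trans (pR h).1.2⟩
    · rintro x y i (⟨_, ⟨rfl, rfl⟩ | h⟩ | ⟨_, h⟩ | ⟨j, _, h⟩)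
      · exact ⟨hm, mem_Ici.2 le_rfl⟩
      · exact ⟨(pS h).2.1, (pS h).2.2.1.le⟩
      · exact ⟨(pT h).2.1, (pT h).2.2.1.le⟩
      · exact ⟨(pR h).2.1, hmm'.le.trans (pR h).2.2⟩
    · rintro x y i x' y' i' (⟨_, ⟨rfl, rfl⟩ | h⟩ | ⟨_, h⟩ | ⟨j, _, h⟩)
        (⟨_, ⟨rfl, rfl⟩ | h'⟩ | ⟨_, h'⟩ | ⟨j', _, h'⟩)
      · simp
      · exact iff_of_true (pS h').1.2.1 (pS h').2.2.1
      · exact iff_of_true (pT h').1.2.1 (pT h').2.2.1
      · exact iff_of_true (hnn'.trans_le (pR h').1.2) (hmm'.trans_le (pR h').2.2)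
      · exact iff_of_false (pS h).1.2.1.not_gt (pS h).2.2.1.not_gt
      · exact hS.lt_iff h h'
      · exact iff_of_true (pST h h').1 (pST h h').2
      · exact iff_of_true ((pS h).1.2.2.trans_le (pR h').1.2) ((pS h).2.2.2.trans_le (pR h').2.2)
      · exact iff_of_false (pT h).1.2.1.not_gt (pT h).2.2.1.not_gt
      · exact iff_of_false (pST h' h).1.not_gt (pST h' h).2.not_gt
      · exact hT.lt_iff h h'
      · exact iff_of_true ((pT h).1.2.2.trans_le (pR h').1.2) ((pT h).2.2.2.trans_le (pR h').2.2)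
      · exact iff_of_false (hnn'.trans_le (pR h).1.2).not_gt (hmm'.trans_le (pR h).2.2).not_gt
      · exact iff_of_false ((pS h').1.2.2.trans_le (pR h).1.2).not_gt
          ((pS h').2.2.2.trans_le (pR h).2.2).not_gt
      · exact iff_of_false ((pT h').1.2.2.trans_le (pR h).1.2).not_gt
          ((pT h').2.2.2.trans_le (pR h).2.2).not_gt
      · exact hR.lt_iff h h'
    · rintro x y i x' y' i' (⟨rfl, _⟩ | ⟨rfl, h⟩ | ⟨j, rfl, h⟩) h' hle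
      · exact Nat.zero_le _
      · rcases h' with ⟨rfl, ⟨rfl, rfl⟩ | h'⟩ | ⟨rfl, h'⟩ | ⟨j', rfl, h'⟩
        · exact ((pT h).1.2.1.not_ge hle).elim
        · exact ((pST h' h).1.not_ge hle).elim
        · exact le_rfl
        · omega
      · rcases h' with ⟨rfl, ⟨rfl, rfl⟩ | h'⟩ | ⟨rfl, h'⟩ | ⟨j', rfl, h'⟩
        · exact ((hnn'.trans_le (pR h).1.2).not_ge hle).elim
        · exact (((pS h').1.2.2.trans_le (pR h).1.2).not_ge hle).elim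
        · exact (((pT h').1.2.2.trans_le (pR h).1.2).not_ge hle).elim
        · exact Nat.succ_le_succ (hR.mono h h' hle)
    · rintro x y i (⟨rfl, _⟩ | ⟨rfl, h⟩ | ⟨j, rfl, h⟩)
      · omega
      · omega
      · have := hR.bound h
        omega
    · rintro x y x' y' i (⟨rfl, h⟩ | ⟨rfl, h⟩ | ⟨j, rfl, h⟩) h' z hz h3 h4
      · rcases h' with ⟨_, h'⟩ | ⟨h0, _⟩ | ⟨j', h0, _⟩
        · rcases eq_or_lt_of_le (mem_Ici.1 hz.2) with rfl | hlt'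
          · exact ⟨n, Or.inl ⟨rfl, Or.inl ⟨rfl, rfl⟩⟩⟩
          · rcases h' with ⟨rfl, rfl⟩ | h2
            · exact (h4.not_gt hlt').elim
            · obtain ⟨w, hw⟩ := hS.ran z (hP'.2 y' (hS.right h2) z
                ⟨hz.1, hlt', h4.trans_lt (pS h2).2.2.2⟩ h4)
              exact ⟨w, Or.inl ⟨rfl, Or.inr hw⟩⟩
        · omega
        · omega
      · have hmz : m < z := (pT h).2.2.1.trans_le h3
        rcases lt_or_ge z m' with hzm | hzm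
        · obtain ⟨w, hw⟩ := hT.ran z (hQ'.2 y (hT.right h) z ⟨hz.1, hmz, hzm⟩ h3)
          exact ⟨w, Or.inr (Or.inl ⟨rfl, hw⟩)⟩
        · rcases h' with ⟨h0, _⟩ | ⟨_, h'⟩ | ⟨j', h0, h'⟩
          · omega
          · exact (((pT h').2.2.2.trans_le hzm).not_ge h4).elim
          · have : j' = 0 := by omega
            subst this
            obtain ⟨w, hw⟩ := hR.conv hR0 h' z ⟨hz.1, hzm⟩ hzm h4
            exact ⟨w, Or.inr (Or.inr ⟨0, rfl, hw⟩)⟩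
      · have hzm : m' ≤ z := (pR h).2.2.trans h3
        rcases h' with ⟨h0, _⟩ | ⟨_, h'⟩ | ⟨j', h0, h'⟩
        · omega
        · exact (((pT h').2.2.2.trans_le hzm).not_ge h4).elim
        · have : j = j' := by omega
          subst this
          obtain ⟨w, hw⟩ := hR.conv h h' z ⟨hz.1, hzm⟩ h3 h4
          exact ⟨w, Or.inr (Or.inr ⟨j, rfl, hw⟩)⟩

theorem pw_of_pe {N M : Set ℚ} (h : PE N M) : PW N M := by
  obtain ⟨n, hn, m, hm, ⟨u, hu, S, hS⟩, k, hk⟩ := h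
  obtain ⟨B, R, hR, hR0⟩ := pw_of_tt k n m hn hm hk
  have pS : ∀ {x y}, S x y → (x ∈ N ∧ x < n) ∧ (y ∈ M ∧ y < m) :=
    fun h => ⟨hS.left h, hu.1 (hS.right h)⟩
  have pR : ∀ {x y i}, R x y i → (x ∈ N ∧ n ≤ x) ∧ (y ∈ M ∧ m ≤ y) :=
    fun h => ⟨hR.left h, hR.right h⟩
  refine ⟨B, fun x y i => (i = 0 ∧ S x y) ∨ R x y i, ⟨?_, ?_, ?_, ?_, ?_, ?_, ?_⟩⟩
  · intro x hx
    rcases lt_or_ge x n with h | h
    · obtain ⟨y, hy⟩ := hS.dom x ⟨hx, h⟩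
      exact ⟨y, 0, Or.inl ⟨rfl, hy⟩⟩
    · obtain ⟨y, i, hy⟩ := hR.dom x ⟨hx, h⟩
      exact ⟨y, i, Or.inr hy⟩
  · rintro x y i (⟨_, h⟩ | h)
    exacts [(pS h).1.1, (pR h).1.1]
  · rintro x y i (⟨_, h⟩ | h)
    exacts [(pS h).2.1, (pR h).2.1]
  · rintro x y i x' y' i' (⟨_, h⟩ | h) (⟨_, h'⟩ | h')
    · exact hS.lt_iff h h'
    · exact iff_of_true ((pS h).1.2.trans_le (pR h').1.2) ((pS h).2.2.trans_le (pR h').2.2)
    · exact iff_of_false ((pS h').1.2.trans_le (pR h).1.2).not_gt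
        ((pS h').2.2.trans_le (pR h).2.2).not_gt
    · exact hR.lt_iff h h'
  · rintro x y i x' y' i' (⟨rfl, h⟩ | h) (⟨rfl, h'⟩ | h') hle
    · exact le_rfl
    · exact Nat.zero_le _
    · exact (((pS h').1.2.trans_le (pR h).1.2).not_ge hle).elim
    · exact hR.mono h h' hle
  · rintro x y i (⟨rfl, h⟩ | h)
    · exact Nat.zero_le _
    · exact hR.bound h
  · rintro x y x' y' i (⟨rfl, h⟩ | h) h' z hz h3 h4
    · rcases lt_or_ge z m with hzm | hzm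
      · obtain ⟨w, hw⟩ := hS.ran z (hu.2 y (hS.right h) z ⟨hz, hzm⟩ h3)
        exact ⟨w, Or.inl ⟨rfl, hw⟩⟩
      · rcases h' with ⟨_, h'⟩ | h'
        · exact (((pS h').2.2.trans_le hzm).not_ge h4).elim
        · obtain ⟨w, hw⟩ := hR.conv hR0 h' z ⟨hz, hzm⟩ hzm h4
          exact ⟨w, Or.inr hw⟩
    · have hmz : m ≤ z := (pR h).2.2.trans h3
      rcases h' with ⟨_, h'⟩ | h'
      · exact (((pS h').2.2.trans_le hmz).not_ge h4).elim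
      · obtain ⟨w, hw⟩ := hR.conv h h' z ⟨hz, hmz⟩ h3 h4
        exact ⟨w, Or.inr hw⟩

/-- Borelness of finite piecewise convex embeddability, in each variable separately. -/
theorem meas_PW_left {Z : Type*} [MeasurableSpace Z] {s : Z → Set ℚ} (hs : Measurable s)
    (hne : ∀ z, (s z).Nonempty) (M : Set ℚ) : Measurable fun z => PW (s z) M := by
  have e : (fun z => PW (s z) M) = fun z => PE (s z) M := by
    funext z
    exact propext ⟨pe_of_pw (hne z), pw_of_pe⟩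
  rw [e]
  exact meas_PE_left hs M

theorem meas_PW_right {Z : Type*} [MeasurableSpace Z] {t : Z → Set ℚ} (ht : Measurable t)
    {N : Set ℚ} (hne : N.Nonempty) : Measurable fun z => PW N (t z) := by
  have e : (fun z => PW N (t z)) = fun z => PE N (t z) := by
    funext z
    exact propext ⟨pe_of_pw hne, pw_of_pe⟩
  rw [e]
  exact meas_PE_right ht N

end Pool.Agent.Lib.MP_9f2d77_lc
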