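import Pool.Agent.Lib.MP_9f2d77_lc.MeasIni

/-! Two-piece embeddings and the mirrored version. -/

namespace Pool.Agent.Lib.MP_9f2d77_lc

open Set

variable {α β γ : Type*} [LinearOrder α] [LinearOrder β] [LinearOrder γ]

/-- The reversed set. -/
def ng (s : Set ℚ) : Set ℚ := {x | -x ∈ s}

theorem mem_ng {s : Set ℚ} {x : ℚ} : x ∈ ng s ↔ -x ∈ s := Iff.rfl

theorem ng_ng (s : Set ℚ) : ng (ng s) = s := by
  ext x; simp [mem_ng]

theorem Iso.ng {s t : Set ℚ} (h : Iso s t) : Iso (ng s) (ng t) := by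
  obtain ⟨R, hR⟩ := h
  refine ⟨fun x y => R (-x) (-y), ⟨?_, ?_, ?_, ?_, ?_⟩⟩
  · intro x hx
    obtain ⟨y, hy⟩ := hR.dom (-x) hx
    exact ⟨-y, by simpa using hy⟩
  · intro y hy
    obtain ⟨x, hx⟩ := hR.ran (-y) hy
    exact ⟨-x, by simpa using hx⟩
  · intro x y h
    exact hR.left h
  · intro x y h
    exact hR.right h
  · intro x y x' y' h h'
    have := hR.lt_iff h' h
    rwa [neg_lt_neg_iff, neg_lt_neg_iff] at this

theorem IsFinal.ng {u t : Set ℚ} (h : IsFinal u t) : IsInit (ng u) (ng t) :=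
  ⟨fun _ hx => h.1 hx, fun x hx y hy hyx => h.2 (-x) hx (-y) hy (neg_le_neg hyx)⟩

theorem IsInit.ng {u t : Set ℚ} (h : IsInit u t) : IsFinal (ng u) (ng t) :=
  ⟨fun _ hx => h.1 hx, fun x hx y hy hyx => h.2 (-x) hx (-y) hy (neg_le_neg hyx)⟩

theorem fnl_iff_ini {s t : Set ℚ} : Fnl s t ↔ Ini (ng s) (ng t) := by
  constructor
  · rintro ⟨u, hu, hI⟩
    exact ⟨ng u, hu.ng, hI.ng⟩
  · rintro ⟨u, hu, hI⟩
    refine ⟨ng u, ?_, ?_⟩
    · have := hu.ng
      rwa [ng_ng] at this
    · have := hI.ng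
      rwa [ng_ng] at this

theorem meas_ng {Z : Type*} [MeasurableSpace Z] {s : Z → Set ℚ} (hs : Measurable s) :
    Measurable fun z => ng (s z) :=
  measurable_set_iff.2 fun q => meas_mem hs (-q)

theorem meas_fnl {Z : Type*} [MeasurableSpace Z] {N M : Z → Set ℚ} (hN : Measurable N)
    (hM : Measurable M) (I : Set ℚ) (h : ∀ z, Fnl (N z) (M z) → Fnl (N z) I) :
    Measurable fun z => Fnl (N z) (M z) := by
  have e : (fun z => Fnl (N z) (M z)) = fun z => Ini (ng (N z)) (ng (M z)) := by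
    funext z
    exact propext fnl_iff_ini
  rw [e]
  exact meas_ini (meas_ng hN) (meas_ng hM) (ng I)
    fun z hz => fnl_iff_ini.1 (h z (fnl_iff_ini.2 hz))

/-- `I = P + Q` and `J = P' + X + Q'` with `P ≅ P'` and `Q ≅ Q'`. -/
def E (I : Set α) (J : Set β) : Prop :=
  ∃ P P' Q', IsInit P I ∧ IsInit P' J ∧ IsFinal Q' J ∧ (∀ x ∈ P', ∀ y ∈ Q', x < y) ∧
    Iso P P' ∧ Iso (I \ P) Q'

/-- The points of `I` whose initial segment occurs in `J` below `w`. -/
def rr (w : β) (I : Set α) (J : Set β) : Set α :=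
  {x | x ∈ I ∧ ∃ y, y ∈ J ∧ y < w ∧ Iso (I ∩ Iic x) (J ∩ Iic y)}

theorem isInit_rr (w : β) (I : Set α) (J : Set β) : IsInit (rr w I J) I := by
  refine ⟨fun _ h => h.1, ?_⟩
  rintro x ⟨hx, y, hy, hyw, R, hR⟩ x' hx' hxx
  obtain ⟨y', hy'⟩ := hR.dom x' ⟨hx', hxx⟩
  have h2 := hR.right hy'
  refine ⟨hx', y', h2.1, lt_of_le_of_lt h2.2 hyw, ?_⟩
  have h3 := hR.iso_Iic hy'
  have e1 : I ∩ Iic x ∩ Iic x' = I ∩ Iic x' := by
    ext v; simp only [mem_inter_iff, mem_Iic]
    exact ⟨fun h => ⟨h.1.1, h.2⟩, fun h => ⟨⟨h.1, h.2.trans hxx⟩, h.2⟩⟩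
  have e2 : J ∩ Iic y ∩ Iic y' = J ∩ Iic y' := by
    ext v; simp only [mem_inter_iff, mem_Iic]
    exact ⟨fun h => ⟨h.1.1, h.2⟩, fun h => ⟨⟨h.1, h.2.trans h2.2⟩, h.2⟩⟩
  rwa [e1, e2] at h3

theorem IsInit.inter_Iic {u t : Set α} (h : IsInit u t) {x : α} (hx : x ∈ u) :
    t ∩ Iic x = u ∩ Iic x := by
  ext w
  exact ⟨fun h1 => ⟨h.2 x hx w h1.1 h1.2, h1.2⟩, fun h1 => ⟨h.1 h1.1, h1.2⟩⟩

theorem e_iff {I : Set α} {J : Set β} : E I J ↔
    (∃ x, x ∈ I ∧ ∃ y, y ∈ J ∧ Iso (I ∩ Iic x) (J ∩ Iic y) ∧ Fnl (I ∩ Ioi x) (J ∩ Ioi y)) ∨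
    (∃ w, w ∈ J ∧ Ini (rr w I J) (J ∩ Iio w) ∧ Fnl (I \ rr w I J) (J ∩ Ioi w)) ∨ Iso I J := by
  constructor
  · rintro ⟨P, P', Q', hP, hP', hQ', hlt, ⟨R, hR⟩, ⟨S, hS⟩⟩
    by_cases hw : ∃ w ∈ J, w ∉ P' ∧ w ∉ Q'
    swap
    · push Not at hw
      refine Or.inr (Or.inr ?_)
      have e1 : I = P ∪ (I \ P) := (union_sdiff_cancel hP.1).symm
      have e2 : J = P' ∪ Q' := by
        apply subset_antisymm
        · intro w hwJ
          by_cases h : w ∈ P'
          · exact Or.inl h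
          · exact Or.inr (hw w hwJ h)
        · exact union_subset hP'.1 hQ'.1
      rw [e1, e2]
      refine Iso.union ⟨R, hR⟩ ⟨S, hS⟩ ?_ hlt
      intro x hx y hy
      by_contra hc
      exact hy.2 (hP.2 x hx y hy.1 (not_lt.1 hc))
    · obtain ⟨w, hwJ, hwP, hwQ⟩ := hw
      have hPw : ∀ y ∈ P', y < w := by
        intro y hy
        by_contra hc
        exact hwP (hP'.2 y hy w hwJ (not_lt.1 hc))
      have hQw : ∀ y ∈ Q', w < y := by
        intro y hy
        by_contra hc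
        exact hwQ (hQ'.2 y hy w hwJ (not_lt.1 hc))
      have hsub : P ⊆ rr w I J := by
        intro x hx
        obtain ⟨y, hy⟩ := hR.dom x hx
        refine ⟨hP.1 hx, y, hP'.1 (hR.right hy), hPw y (hR.right hy), ?_⟩
        rw [hP.inter_Iic hx, hP'.inter_Iic (hR.right hy)]
        exact hR.iso_Iic hy
      by_cases heq : rr w I J ⊆ P
      · have he : P = rr w I J := subset_antisymm hsub heq
        refine Or.inr (Or.inl ⟨w, hwJ, ?_, ?_⟩)
        · rw [← he]
          refine ⟨P', ⟨fun y hy => ⟨hP'.1 hy, hPw y hy⟩, fun x hx y hy hyx => ?_⟩, R, hR⟩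
          exact hP'.2 x hx y hy.1 hyx
        · rw [← he]
          refine ⟨Q', ⟨fun y hy => ⟨hQ'.1 hy, hQw y hy⟩, fun x hx y hy hyx => ?_⟩, S, hS⟩
          exact hQ'.2 x hx y hy.1 hyx
      · obtain ⟨x, hx, hxP⟩ := not_subset.1 heq
        obtain ⟨hxI, y, hy, hyw, hI⟩ := hx
        refine Or.inl ⟨x, hxI, y, hy, hI, ?_⟩
        have hsub2 : I ∩ Ioi x ⊆ I \ P := by
          rintro v ⟨hv, hxv⟩
          exact ⟨hv, fun hvP => hxP (hP.2 v hvP x hxI (le_of_lt hxv))⟩
        refine ⟨{v | ∃ u ∈ I ∩ Ioi x, S u v}, ⟨?_, ?_⟩, _, hS.image hsub2⟩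
        · rintro v ⟨u, hu, huv⟩
          exact ⟨hQ'.1 (hS.right huv), hyw.trans (hQw v (hS.right huv))⟩
        · rintro v ⟨u, hu, huv⟩ v' hv' hvv'
          have hv'Q : v' ∈ Q' := hQ'.2 v (hS.right huv) v' hv'.1 hvv'
          obtain ⟨u', hu'⟩ := hS.ran v' hv'Q
          refine ⟨u', ⟨(hS.left hu').1, ?_⟩, hu'⟩
          exact lt_of_lt_of_le hu.2 ((hS.le_iff huv hu').2 hvv')
  · rintro (⟨x, hx, y, hy, hI, u, hu, hU⟩ | ⟨w, hw, ⟨u, hu, hU⟩, ⟨v, hv, hV⟩⟩ | h)
    · refine ⟨I ∩ Iic x, J ∩ Iic y, u, isInit_inter_Iic _ _, isInit_inter_Iic _ _, ⟨?_, ?_⟩,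
        ?_, hI, ?_⟩
      · exact fun a ha => (hu.1 ha).1
      · exact fun a ha b hb hab => hu.2 a ha b ⟨hb, lt_of_lt_of_le (hu.1 ha).2 hab⟩ hab
      · exact fun a ha b hb => lt_of_le_of_lt ha.2 (hu.1 hb).2
      · have e : I \ (I ∩ Iic x) = I ∩ Ioi x := by
          ext w
          simp only [mem_sdiff, mem_inter_iff, mem_Iic, mem_Ioi, not_and, not_le]
          exact ⟨fun h => ⟨h.1, h.2 h.1⟩, fun h => ⟨h.1, fun _ => h.2⟩⟩
        rwa [e]
    · refine ⟨rr w I J, u, v, isInit_rr _ _ _, ⟨?_, ?_⟩, ⟨?_, ?_⟩, ?_, hU, hV⟩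
      · exact fun a ha => (hu.1 ha).1
      · exact fun a ha b hb hab => hu.2 a ha b ⟨hb, lt_of_le_of_lt hab (hu.1 ha).2⟩ hab
      · exact fun a ha => (hv.1 ha).1
      · exact fun a ha b hb hab => hv.2 a ha b ⟨hb, lt_of_lt_of_le (hv.1 ha).2 hab⟩ hab
      · exact fun a ha b hb => lt_trans (hu.1 ha).2 (hv.1 hb).2
    · refine ⟨I, J, ∅, IsInit.refl I, IsInit.refl J, ⟨empty_subset _, fun _ h => h.elim⟩,
        fun _ _ _ h => h.elim, h, ?_⟩
      rw [sdiff_self]
      exact ⟨fun _ _ => False, ⟨fun _ h => h.elim, fun _ h => h.elim, fun h => h.elim,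
        fun h => h.elim, fun h => h.elim⟩⟩

section measurability

variable {Z : Type*} [MeasurableSpace Z]

theorem Fnl.refl (s : Set α) : Fnl s s := ⟨s, ⟨Subset.rfl, fun _ _ _ h _ => h⟩, Iso.refl s⟩

theorem meas_iso' {s : Z → Set ℚ} (hs : Measurable s) (C : Set ℚ) :
    Measurable fun z => Iso C (s z) := by
  have e : (fun z => Iso C (s z)) = fun z => Iso (s z) C := by
    funext z
    exact propext Iso.comm
  rw [e]
  exact meas_iso hs C

/-- Borelness of `E` with fixed target. -/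
theorem meas_E_left {s : Z → Set ℚ} (hs : Measurable s) (J : Set ℚ) :
    Measurable fun z => E (s z) J := by
  simp only [e_iff]
  have hrr : ∀ w, Measurable fun z => rr w (s z) J := fun w => measurable_set_iff.2 fun x =>
    (meas_mem hs x).and (Measurable.exists fun y => measurable_const.and (measurable_const.and
      (meas_iso (meas_inter hs _) _)))
  refine Measurable.or ?_ (Measurable.or ?_ (meas_iso hs J))
  · exact Measurable.exists fun x => (meas_mem hs x).and (Measurable.exists fun y =>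
      measurable_const.and ((meas_iso (meas_inter hs _) _).and
      (meas_fnl (meas_inter hs _) measurable_const _ fun z hz => hz)))
  · exact Measurable.exists fun w => measurable_const.and
      ((meas_ini (hrr w) measurable_const _ fun z hz => hz).and
      (meas_fnl (meas_diff hs (hrr w)) measurable_const _ fun z hz => hz))

/-- Borelness of `E` with fixed source. -/
theorem meas_E_right {t : Z → Set ℚ} (ht : Measurable t) (I : Set ℚ) :
    Measurable fun z => E I (t z) := by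
  simp only [e_iff]
  have hrr : ∀ w, Measurable fun z => rr w I (t z) := fun w => measurable_set_iff.2 fun x =>
    measurable_const.and (Measurable.exists fun y => (meas_mem ht y).and (measurable_const.and
      (meas_iso' (meas_inter ht _) _)))
  refine Measurable.or ?_ (Measurable.or ?_ (meas_iso' ht I))
  · exact Measurable.exists fun x => measurable_const.and (Measurable.exists fun y =>
      (meas_mem ht y).and ((meas_iso' (meas_inter ht _) _).and
      (meas_fnl measurable_const (meas_inter ht _) _ fun _ _ => Fnl.refl _)))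
  · refine Measurable.exists fun w => (meas_mem ht w).and
      ((meas_ini (hrr w) (meas_inter ht _) I fun z _ => (isInit_rr w I (t z)).ini).and
      (meas_fnl (meas_diff measurable_const (hrr w)) (meas_inter ht _) I fun z _ => ?_))
    refine ⟨I \ rr w I (t z), ⟨sdiff_subset, ?_⟩, Iso.refl _⟩
    intro a ha b hb hab
    exact ⟨hb, fun hc => ha.2 ((isInit_rr w I (t z)).2 b hc a ha.1 hab)⟩

/-- Piecewise embedding above the points `n` and `m`, with `k` further marked points. -/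
def TT : ℕ → Set ℚ → Set ℚ → ℚ → ℚ → Prop
  | 0, N, M, n, m => Ini (N ∩ Ioi n) (M ∩ Ioi m)
  | k + 1, N, M, n, m => ∃ n', n' ∈ N ∧ ∃ m', m' ∈ M ∧ n < n' ∧ m < m' ∧
      E (N ∩ Ioo n n') (M ∩ Ioo m m') ∧ TT k N M n' m'

/-- Piecewise embedding, in terms of marked points. -/
def PE (N M : Set ℚ) : Prop :=
  ∃ n, n ∈ N ∧ ∃ m, m ∈ M ∧ Fnl (N ∩ Iio n) (M ∩ Iio m) ∧ ∃ k, TT k N M n m

theorem meas_TT_left {s : Z → Set ℚ} (hs : Measurable s) (M : Set ℚ) (k : ℕ) (n m : ℚ) :
    Measurable fun z => TT k (s z) M n m := by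
  induction k generalizing n m with
  | zero => exact meas_ini (meas_inter hs _) measurable_const _ fun _ hz => hz
  | succ k ih =>
    exact Measurable.exists fun n' => (meas_mem hs n').and (Measurable.exists fun m' =>
      measurable_const.and (measurable_const.and (measurable_const.and
      ((meas_E_left (meas_inter hs _) _).and (ih n' m')))))

theorem meas_TT_right {t : Z → Set ℚ} (ht : Measurable t) (N : Set ℚ) (k : ℕ) (n m : ℚ) :
    Measurable fun z => TT k N (t z) n m := by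
  induction k generalizing n m with
  | zero => exact meas_ini measurable_const (meas_inter ht _) _ fun _ _ => Ini.refl _
  | succ k ih =>
    exact Measurable.exists fun n' => measurable_const.and (Measurable.exists fun m' =>
      (meas_mem ht m').and (measurable_const.and (measurable_const.and
      ((meas_E_right (meas_inter ht _) _).and (ih n' m')))))

theorem meas_PE_left {s : Z → Set ℚ} (hs : Measurable s) (M : Set ℚ) :
    Measurable fun z => PE (s z) M :=
  Measurable.exists fun n => (meas_mem hs n).and (Measurable.exists fun m =>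
    measurable_const.and ((meas_fnl (meas_inter hs _) measurable_const _ fun _ hz => hz).and
    (Measurable.exists fun k => meas_TT_left hs M k n m)))

theorem meas_PE_right {t : Z → Set ℚ} (ht : Measurable t) (N : Set ℚ) :
    Measurable fun z => PE N (t z) :=
  Measurable.exists fun n => measurable_const.and (Measurable.exists fun m =>
    (meas_mem ht m).and ((meas_fnl measurable_const (meas_inter ht _) _
    fun _ _ => Fnl.refl _).and (Measurable.exists fun k => meas_TT_right ht N k n m)))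

end measurability

end Pool.Agent.Lib.MP_9f2d77_lc
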